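import Mathlib
set_option autoImplicit false
open MeasureTheory Set Filter Topology
noncomputable section
namespace Pool.Agent.R243.HS

/-- the dyadic interval `[k 2^j, (k+1) 2^j)` -/
def dya (j k : ℤ) : Set ℝ := Set.Ico ((k:ℝ) * (2:ℝ) ^ j) (((k:ℝ) + 1) * (2:ℝ) ^ j)

lemma mem_dya {j k : ℤ} {x : ℝ} : x ∈ dya j k ↔ ⌊x / (2:ℝ) ^ j⌋ = k := by
  have h : (0:ℝ) < (2:ℝ) ^ j := by positivity
  rw [Int.floor_eq_iff, dya, Set.mem_Ico, le_div_iff₀ h, div_lt_iff₀ h]

lemma measurableSet_dya (j k : ℤ) : MeasurableSet (dya j k) := measurableSet_Ico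

lemma volume_dya (j k : ℤ) : volume (dya j k) = ENNReal.ofReal ((2:ℝ) ^ j) := by
  rw [dya, Real.volume_Ico]; congr 1; ring

lemma volume_dya_ne_top (j k : ℤ) : volume (dya j k) ≠ ⊤ := by
  rw [volume_dya]; exact ENNReal.ofReal_ne_top

lemma volume_real_dya (j k : ℤ) : volume.real (dya j k) = (2:ℝ) ^ j := by
  rw [measureReal_def, volume_dya, ENNReal.toReal_ofReal (by positivity)]

/-- parent of the interval number `m` -/
lemma floor_half (x : ℝ) (j : ℤ) : ⌊x / (2:ℝ) ^ (j + 1)⌋ = ⌊x / (2:ℝ) ^ j⌋ / 2 := by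
  have : x / (2:ℝ) ^ (j + 1) = (x / (2:ℝ) ^ j) / ((2:ℕ):ℝ) := by
    rw [zpow_add₀ (by norm_num : (2:ℝ) ≠ 0)]; field_simp; norm_num
  rw [this, Int.floor_div_natCast]; rfl

lemma floor_anc (x : ℝ) (j : ℤ) (n : ℕ) :
    ⌊x / (2:ℝ) ^ (j + n)⌋ = ⌊x / (2:ℝ) ^ j⌋ / 2 ^ n := by
  have : x / (2:ℝ) ^ (j + n) = (x / (2:ℝ) ^ j) / ((2 ^ n : ℕ):ℝ) := by
    rw [zpow_add₀ (by norm_num : (2:ℝ) ≠ 0)]; push_cast; rw [zpow_natCast]; field_simp
  rw [this, Int.floor_div_natCast]; push_cast; rfl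

lemma dya_subset_anc (j m : ℤ) (n : ℕ) : dya j m ⊆ dya (j + n) (m / 2 ^ n) := by
  intro x hx
  rw [mem_dya] at hx ⊢
  rw [floor_anc, hx]

lemma dya_disjoint_anc {j m k : ℤ} {n : ℕ} (h : m / 2 ^ n ≠ k) : Disjoint (dya j m) (dya (j + n) k) := by
  rw [Set.disjoint_left]
  intro x hx hx'
  rw [mem_dya] at hx hx'
  rw [floor_anc, hx] at hx'
  exact h hx'

lemma dya_disjoint {j m k : ℤ} (h : m ≠ k) : Disjoint (dya j m) (dya j k) := by
  rw [Set.disjoint_left]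
  intro x hx hx'
  rw [mem_dya] at hx hx'
  exact h (hx.symm.trans hx')

lemma dya_subset_par (j m : ℤ) : dya (j - 1) m ⊆ dya j (m / 2) := by
  have := dya_subset_anc (j - 1) m 1
  simpa using this

lemma dya_children (j k : ℤ) : dya j k = dya (j - 1) (2 * k) ∪ dya (j - 1) (2 * k + 1) := by
  ext x
  rw [Set.mem_union, mem_dya, mem_dya, mem_dya]
  have h := floor_half x (j - 1)
  rw [sub_add_cancel] at h
  rw [h]
  omega

lemma dya_children_disj (j k : ℤ) : Disjoint (dya (j - 1) (2 * k)) (dya (j - 1) (2 * k + 1)) :=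
  dya_disjoint (by omega)

/-- The Haar function `|J|^(-1/2) (1_{J_+} - 1_{J_-})` of `J = [k 2^j, (k+1) 2^j)`. -/
def haarFun (j k : ℤ) (x : ℝ) : ℝ :=
  (Real.sqrt ((2:ℝ) ^ j))⁻¹ * ((dya (j - 1) (2 * k + 1)).indicator (fun _ => (1:ℝ)) x -
    (dya (j - 1) (2 * k)).indicator (fun _ => (1:ℝ)) x)

lemma memLp_ind (j k : ℤ) : MemLp ((dya j k).indicator (fun _ => (1:ℝ))) 2 volume :=
  memLp_indicator_const 2 (measurableSet_dya j k) 1 (Or.inr (volume_dya_ne_top j k))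

lemma memLp_haarFun (j k : ℤ) : MemLp (haarFun j k) 2 volume := by
  unfold haarFun
  exact ((memLp_ind _ _).sub (memLp_ind _ _)).const_mul _

/-- the Haar function in `L²(ℝ)` -/
def haar (j k : ℤ) : Lp ℝ 2 (volume : Measure ℝ) := (memLp_haarFun j k).toLp

abbrev L2 := Lp ℝ 2 (volume : Measure ℝ)

/-- indicator of a dyadic interval -/
def ind (j k : ℤ) : L2 := indicatorConstLp 2 (measurableSet_dya j k) (volume_dya_ne_top j k) (1:ℝ)

/-- weight -/
def wt (j : ℤ) : ℝ := (Real.sqrt ((2:ℝ) ^ j))⁻¹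

lemma wt_pos (j : ℤ) : 0 < wt j := by unfold wt; positivity

lemma wt_sq (j : ℤ) : wt j ^ 2 * (2:ℝ) ^ j = 1 := by
  unfold wt
  rw [inv_pow, Real.sq_sqrt (by positivity)]
  field_simp

lemma haar_eq (j k : ℤ) : haar j k = wt j • (ind (j - 1) (2 * k + 1) - ind (j - 1) (2 * k)) := by
  unfold haar ind wt
  apply Lp.ext
  have h1 := indicatorConstLp_coeFn (p := 2) (hs := measurableSet_dya (j-1) (2*k+1))
    (hμs := volume_dya_ne_top (j-1) (2*k+1)) (c := (1:ℝ))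
  have h2 := indicatorConstLp_coeFn (p := 2) (hs := measurableSet_dya (j-1) (2*k))
    (hμs := volume_dya_ne_top (j-1) (2*k)) (c := (1:ℝ))
  have h3 := (memLp_haarFun j k).coeFn_toLp
  have h4 := Lp.coeFn_smul (Real.sqrt ((2:ℝ) ^ j))⁻¹
    (indicatorConstLp 2 (measurableSet_dya (j-1) (2*k+1)) (volume_dya_ne_top (j-1) (2*k+1)) (1:ℝ) -
     indicatorConstLp 2 (measurableSet_dya (j-1) (2*k)) (volume_dya_ne_top (j-1) (2*k)) (1:ℝ))
  have h5 := Lp.coeFn_sub
    (indicatorConstLp 2 (measurableSet_dya (j-1) (2*k+1)) (volume_dya_ne_top (j-1) (2*k+1)) (1:ℝ))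
     (indicatorConstLp 2 (measurableSet_dya (j-1) (2*k)) (volume_dya_ne_top (j-1) (2*k)) (1:ℝ))
  filter_upwards [h1, h2, h3, h4, h5] with x h1 h2 h3 h4 h5
  rw [h3, h4, Pi.smul_apply, h5, Pi.sub_apply, h1, h2]
  simp [haarFun]

/-- integral over a dyadic interval -/
def A (u : L2) (j k : ℤ) : ℝ := ∫ x in dya j k, u x

/-- Haar coefficient -/
def cf (u : L2) (j k : ℤ) : ℝ := inner ℝ (haar j k) u

lemma inner_ind (u : L2) (j k : ℤ) : inner ℝ (ind j k) u = A u j k := by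
  unfold ind A
  rw [L2.inner_indicatorConstLp_one]

lemma cf_eq (u : L2) (j k : ℤ) :
    cf u j k = wt j * (A u (j - 1) (2 * k + 1) - A u (j - 1) (2 * k)) := by
  unfold cf
  rw [haar_eq, inner_smul_left, inner_sub_left, inner_ind, inner_ind]
  simp

lemma integrableOn_L2 (u : L2) {s : Set ℝ} (hs : volume s ≠ ⊤) : IntegrableOn u s volume := by
  have hM : MemLp u 2 (volume.restrict s) := (Lp.memLp u).restrict s
  have : IsFiniteMeasure (volume.restrict s) :=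
    ⟨by rw [Measure.restrict_apply_univ]; exact lt_top_iff_ne_top.2 hs⟩
  exact hM.integrable (by norm_num)

lemma A_children (u : L2) (j k : ℤ) :
    A u j k = A u (j - 1) (2 * k) + A u (j - 1) (2 * k + 1) := by
  unfold A
  rw [dya_children j k, setIntegral_union (dya_children_disj j k) (measurableSet_dya _ _)
    (integrableOn_L2 u (volume_dya_ne_top _ _)) (integrableOn_L2 u (volume_dya_ne_top _ _))]

lemma A_half {u : L2} {j k : ℤ} (h : cf u j k = 0) :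
    A u (j - 1) (2 * k) = A u j k / 2 ∧ A u (j - 1) (2 * k + 1) = A u j k / 2 := by
  rw [cf_eq] at h
  have h1 := A_children u j k
  have h2 := wt_pos j
  have h3 : A u (j - 1) (2 * k + 1) - A u (j - 1) (2 * k) = 0 := by
    rcases mul_eq_zero.1 h with h | h
    · exact absurd h h2.ne'
    · exact h
  constructor <;> linarith

lemma A_half' {u : L2} {j m : ℤ} (h : cf u j (m / 2) = 0) :
    A u (j - 1) m = A u j (m / 2) / 2 := by
  obtain ⟨h1, h2⟩ := A_half h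
  rcases Int.emod_two_eq_zero_or_one m with h0 | h0
  · have : 2 * (m / 2) = m := by omega
    rw [this] at h1; exact h1
  · have : 2 * (m / 2) + 1 = m := by omega
    rw [this] at h2; exact h2

lemma A_abs_le (u : L2) (j k : ℤ) : |A u j k| ≤ ‖u‖ * Real.sqrt ((2:ℝ) ^ j) := by
  rw [← inner_ind]
  refine (abs_real_inner_le_norm _ _).trans ?_
  rw [mul_comm]
  gcongr
  unfold ind
  rw [norm_indicatorConstLp (by norm_num) (by norm_num), volume_real_dya]
  simp [Real.sqrt_eq_rpow]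

/-- Lebesgue differentiation along dyadic intervals -/
lemma ld {f : ℝ → ℝ} (hf : LocallyIntegrable f volume) : ∀ᵐ x, Tendsto (fun n : ℕ =>
    (2:ℝ) ^ n * ∫ y in dya (-(n:ℤ)) ⌊x / (2:ℝ) ^ (-(n:ℤ))⌋, f y) atTop (𝓝 (f x)) := by
  filter_upwards [IsUnifLocDoublingMeasure.ae_tendsto_average (μ := (volume : Measure ℝ)) hf 1] with x hx
  set c : ℕ → ℝ := fun n => ((⌊x / (2:ℝ) ^ (-(n:ℤ))⌋ : ℝ) + 1/2) * (2:ℝ) ^ (-(n:ℤ)) with hc
  set δ : ℕ → ℝ := fun n => (2:ℝ) ^ (-(n:ℤ)) / 2 with hδ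
  have hpos : ∀ n : ℕ, (0:ℝ) < (2:ℝ) ^ (-(n:ℤ)) := fun n => by positivity
  have hball : ∀ n, Metric.closedBall (c n) (δ n) =
      Set.Icc ((⌊x / (2:ℝ) ^ (-(n:ℤ))⌋ : ℝ) * (2:ℝ) ^ (-(n:ℤ)))
        (((⌊x / (2:ℝ) ^ (-(n:ℤ))⌋ : ℝ) + 1) * (2:ℝ) ^ (-(n:ℤ))) := by
    intro n
    rw [Real.closedBall_eq_Icc]
    congr 1
    · simp only [hc, hδ]; ring
    · simp only [hc, hδ]; ring
  have h0 : Tendsto δ atTop (𝓝[>] 0) := by
    rw [tendsto_nhdsWithin_iff]
    refine ⟨?_, Eventually.of_forall fun n => by simp only [hδ, Set.mem_Ioi]; linarith [hpos n]⟩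
    have : δ = fun n : ℕ => ((1:ℝ)/2) ^ n / 2 := by
      funext n; simp only [hδ]; rw [zpow_neg, zpow_natCast, one_div, inv_pow]
    rw [this]
    have h := tendsto_pow_atTop_nhds_zero_of_lt_one (r := (1:ℝ)/2) (by norm_num) (by norm_num)
    simpa using h.div_const 2
  have h1 := hx (l := atTop) c δ h0 (Eventually.of_forall fun n => by
    rw [one_mul, hball n]
    have : x ∈ dya (-(n:ℤ)) ⌊x / (2:ℝ) ^ (-(n:ℤ))⌋ := mem_dya.2 rfl
    exact Set.Ico_subset_Icc_self this)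
  refine h1.congr fun n => ?_
  rw [setAverage_eq, hball n, measureReal_def, Real.volume_Icc, integral_Icc_eq_integral_Ico]
  have : (((⌊x / (2:ℝ) ^ (-(n:ℤ))⌋ : ℝ) + 1) * (2:ℝ) ^ (-(n:ℤ)) -
      (⌊x / (2:ℝ) ^ (-(n:ℤ))⌋ : ℝ) * (2:ℝ) ^ (-(n:ℤ))) = (2:ℝ) ^ (-(n:ℤ)) := by ring
  have e : ((2:ℝ) ^ (-(n:ℤ)))⁻¹ = 2 ^ n := by rw [zpow_neg, inv_inv, zpow_natCast]
  rw [this, ENNReal.toReal_ofReal (hpos n).le, smul_eq_mul, e]
  rfl

lemma locInt (u : L2) : LocallyIntegrable u volume :=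
  (Lp.memLp u).locallyIntegrable (by norm_num)

/-- completeness of the Haar system -/
lemma eq_zero_of_cf {u : L2} (h : ∀ j k, cf u j k = 0) : u = 0 := by
  have hA : ∀ j k : ℤ, A u j k = 0 := by
    have h1 : ∀ (n : ℕ) (j m : ℤ), A u j m = A u (j + n) (m / 2 ^ n) / 2 ^ n := by
      intro n
      induction n with
      | zero => intro j m; simp
      | succ n ih =>
        intro j m
        have e1 := A_half' (h (j + 1) (m / 2))
        rw [add_sub_cancel_right] at e1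
        rw [e1, ih (j + 1) (m / 2), Int.ediv_ediv_of_nonneg (by norm_num), ← pow_succ']
        push_cast
        rw [show j + 1 + (n:ℤ) = j + ((n:ℤ) + 1) by ring]
        rw [pow_succ]
        field_simp
        try ring
    intro j k
    have h2 : ∀ n : ℕ, |A u j k| ≤ ‖u‖ * Real.sqrt ((2:ℝ) ^ j) * (1 / Real.sqrt 2) ^ n := by
      intro n
      rw [h1 n j k, abs_div, abs_of_pos (by positivity : (0:ℝ) < 2 ^ n), div_le_iff₀ (by positivity)]
      refine (A_abs_le u _ _).trans (le_of_eq ?_)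
      rw [zpow_add₀ (by norm_num : (2:ℝ) ≠ 0), Real.sqrt_mul (by positivity), zpow_natCast]
      have : Real.sqrt ((2:ℝ) ^ n) = Real.sqrt 2 ^ n := by
        rw [← Real.sqrt_sq (by positivity : 0 ≤ Real.sqrt 2 ^ n), ← pow_mul, mul_comm n 2, pow_mul,
          Real.sq_sqrt (by norm_num)]
      rw [this]
      have h4 : (1 / Real.sqrt 2) ^ n * 2 ^ n = Real.sqrt 2 ^ n := by
        rw [← mul_pow]
        congr 1
        have : Real.sqrt 2 * Real.sqrt 2 = 2 := Real.mul_self_sqrt (by norm_num)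
        field_simp
        nlinarith
      calc ‖u‖ * (Real.sqrt ((2:ℝ) ^ j) * Real.sqrt 2 ^ n)
          = ‖u‖ * Real.sqrt ((2:ℝ) ^ j) * ((1 / Real.sqrt 2) ^ n * 2 ^ n) := by rw [h4]; ring
        _ = _ := by ring
    have h3 : Tendsto (fun n : ℕ => ‖u‖ * Real.sqrt ((2:ℝ) ^ j) * (1 / Real.sqrt 2) ^ n) atTop (𝓝 0) := by
      have h5 : (1 / Real.sqrt 2) < 1 := by
        rw [div_lt_one (by positivity)]
        exact Real.lt_sqrt_of_sq_lt (by norm_num)
      have := tendsto_pow_atTop_nhds_zero_of_lt_one (r := 1 / Real.sqrt 2) (by positivity) h5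
      simpa using this.const_mul (‖u‖ * Real.sqrt ((2:ℝ) ^ j))
    have h4 := ge_of_tendsto h3 (Eventually.of_forall h2)
    exact abs_eq_zero.1 (le_antisymm h4 (abs_nonneg _))
  apply Lp.ext
  filter_upwards [ld (locInt u), Lp.coeFn_zero ℝ 2 (volume : Measure ℝ)] with x hx h0
  rw [h0]
  refine (tendsto_nhds_unique hx ?_)
  have : (fun n : ℕ => (2:ℝ) ^ n * ∫ y in dya (-(n:ℤ)) ⌊x / (2:ℝ) ^ (-(n:ℤ))⌋, u y) = fun _ => (0:ℝ) := by
    funext n
    have := hA (-(n:ℤ)) ⌊x / (2:ℝ) ^ (-(n:ℤ))⌋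
    unfold A at this
    rw [this, mul_zero]
  rw [this]
  exact tendsto_const_nhds

/-- `u` is constant on `dya j k` if all its coefficients inside vanish -/
lemma const_on {u : L2} {j k : ℤ} (h : ∀ (n : ℕ) (m : ℤ), m / 2 ^ n = k → cf u (j - n) m = 0) :
    ∀ᵐ x ∂(volume.restrict (dya j k)), u x = A u j k / 2 ^ j := by
  have h1 : ∀ (n : ℕ) (m : ℤ), m / 2 ^ n = k → A u (j - n) m * 2 ^ n = A u j k := by
    intro n
    induction n with
    | zero => intro m hm; simp at hm; subst hm; simp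
    | succ n ih =>
      intro m hm
      have e0 : m / 2 / 2 ^ n = k := by
        rw [Int.ediv_ediv_of_nonneg (by norm_num), ← pow_succ']; exact hm
      have e1 := A_half' (h n (m / 2) e0)
      have e2 := ih (m / 2) e0
      push_cast
      rw [show j - ((n:ℤ) + 1) = j - n - 1 by ring, e1, ← e2, pow_succ]
      ring
  rw [ae_restrict_iff' (measurableSet_dya j k)]
  filter_upwards [ld (locInt u)] with x hx hxk
  refine tendsto_nhds_unique hx ?_
  apply tendsto_const_nhds.congr'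
  filter_upwards [eventually_ge_atTop (j.natAbs)] with n hn
  -- level -n = j - (j + n)
  obtain ⟨p, hp⟩ : ∃ p : ℕ, (p:ℤ) = j + n := ⟨(j + n).toNat, by
    rw [Int.toNat_of_nonneg]; omega⟩
  set m := ⌊x / (2:ℝ) ^ (-(n:ℤ))⌋ with hm
  have e1 : m / 2 ^ p = k := by
    have := floor_anc x (-(n:ℤ)) p
    rw [hp, show -(n:ℤ) + (j + n) = j by ring] at this
    rw [hm, ← this]
    exact mem_dya.1 hxk
  have e2 := h1 p m e1
  rw [hp, show j - (j + (n:ℤ)) = -(n:ℤ) by ring] at e2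
  unfold A at e2
  have e3 : (2:ℝ) ^ p = (2:ℝ) ^ j * (2:ℝ) ^ n := by
    rw [← zpow_natCast, hp, zpow_add₀ (by norm_num), zpow_natCast]
  have h2j : (0:ℝ) < (2:ℝ) ^ j := by positivity
  unfold A
  rw [← e2, e3]
  field_simp

end Pool.Agent.R243.HS
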