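import Pool.Agent.R243.HS.Two
set_option autoImplicit false
open MeasureTheory Set Filter Topology
noncomputable section
namespace Pool.Agent.R243.HS

/-- The two-parameter Haar shift. For `I = [k 2^j, (k+1) 2^j)` and `I' = [k' 2^j', (k'+1) 2^j')`:
`T₂(h_{I_+} ⊗ h_{I'_+}) = h_{I_-} ⊗ h_{I'_-}`, `T₂(h_{I_+} ⊗ h_{I'_-}) = - h_{I_-} ⊗ h_{I'_+}`,
`T₂(h_{I_-} ⊗ h_{I'_+}) = - h_{I_+} ⊗ h_{I'_-}`, `T₂(h_{I_-} ⊗ h_{I'_-}) = h_{I_+} ⊗ h_{I'_+}`. -/
def IsShift2 (T : L22 →L[ℝ] L22) : Prop :=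
  ∀ j k j' k' : ℤ,
    T (haar2 (j-1) (2*k+1) (j'-1) (2*k'+1)) = haar2 (j-1) (2*k) (j'-1) (2*k') ∧
    T (haar2 (j-1) (2*k+1) (j'-1) (2*k')) = - haar2 (j-1) (2*k) (j'-1) (2*k'+1) ∧
    T (haar2 (j-1) (2*k) (j'-1) (2*k'+1)) = - haar2 (j-1) (2*k+1) (j'-1) (2*k') ∧
    T (haar2 (j-1) (2*k) (j'-1) (2*k')) = haar2 (j-1) (2*k+1) (j'-1) (2*k'+1)

lemma isShift2_iff (T : L22 →L[ℝ] L22) :
    IsShift2 T ↔ ∀ i : (ℤ × ℤ) × (ℤ × ℤ), T (hb2 i) =
      (sg i.1.2 * sg i.2.2) • hb2 ((i.1.1, sib i.1.2), (i.2.1, sib i.2.2)) := by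
  constructor
  · rintro h ⟨⟨j, k⟩, ⟨j', k'⟩⟩
    unfold hb2 sg sib
    simp only
    obtain ⟨h1, h2, h3, h4⟩ := h (j+1) (k/2) (j'+1) (k'/2)
    rw [add_sub_cancel_right, add_sub_cancel_right] at h1 h2 h3 h4
    rcases Int.emod_two_eq_zero_or_one k with h0 | h0 <;>
      rcases Int.emod_two_eq_zero_or_one k' with h0' | h0'
    · rw [show 2 * (k/2) = k by omega, show 2 * (k'/2) = k' by omega] at h4
      rw [if_pos h0, if_pos h0', if_pos h0, if_pos h0', h4]; norm_num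
    · rw [show 2 * (k/2) = k by omega, show 2 * (k'/2) + 1 = k' by omega,
        show 2 * (k'/2) = k' - 1 by omega] at h3
      rw [if_pos h0, if_neg (by omega), if_pos h0, if_neg (by omega), h3]; norm_num
    · rw [show 2 * (k/2) + 1 = k by omega, show 2 * (k'/2) = k' by omega,
        show 2 * (k/2) = k - 1 by omega] at h2
      rw [if_neg (by omega), if_pos h0', if_neg (by omega), if_pos h0', h2]; norm_num
    · rw [show 2 * (k/2) + 1 = k by omega, show 2 * (k'/2) + 1 = k' by omega,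
        show 2 * (k/2) = k - 1 by omega, show 2 * (k'/2) = k' - 1 by omega] at h1
      rw [if_neg (by omega), if_neg (by omega), if_neg (by omega), if_neg (by omega), h1]; norm_num
  · intro h j k j' k'
    have e1 : (2 * k + 1) % 2 = 1 := by omega
    have e2 : (2 * k) % 2 = 0 := by omega
    have e3 : (2 * k' + 1) % 2 = 1 := by omega
    have e4 : (2 * k') % 2 = 0 := by omega
    refine ⟨?_, ?_, ?_, ?_⟩
    · have := h ((j-1, 2*k+1), (j'-1, 2*k'+1))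
      unfold hb2 sg sib at this
      simp only [e1, e3] at this
      rw [this]; simp
    · have := h ((j-1, 2*k+1), (j'-1, 2*k'))
      unfold hb2 sg sib at this
      simp only [e1, e4] at this
      rw [this]; simp
    · have := h ((j-1, 2*k), (j'-1, 2*k'+1))
      unfold hb2 sg sib at this
      simp only [e2, e3] at this
      rw [this]; simp
    · have := h ((j-1, 2*k), (j'-1, 2*k'))
      unfold hb2 sg sib at this
      simp only [e2, e4] at this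
      rw [this]; simp

lemma sib2_inv : Function.Involutive (fun i : (ℤ × ℤ) × (ℤ × ℤ) =>
    (((i.1.1, sib i.1.2), (i.2.1, sib i.2.2)) : (ℤ × ℤ) × (ℤ × ℤ))) := by
  intro i; simp [sib_sib]

theorem existsUnique_shift2 : ∃! T : L22 →L[ℝ] L22, IsShift2 T := by
  have := exists_op hb2_orthonormal hb2_complete sib2_inv (s := fun i => sg i.1.2 * sg i.2.2) (fun i => by
    have h1 := sg_mul i.1.2
    have h2 := sg_mul i.2.2
    calc sg i.1.2 * sg i.2.2 * (sg i.1.2 * sg i.2.2) = (sg i.1.2 * sg i.1.2) * (sg i.2.2 * sg i.2.2) := by ring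
      _ = 1 := by rw [h1, h2, one_mul])
  simpa only [isShift2_iff] using this

/-- the union of the diagonal unit squares with numbers in `[k 2^n, (k+1) 2^n)` -/
def Dg (n : ℕ) (k : ℤ) : L22 := ∑ i ∈ Finset.range (2 ^ n), ind2 0 (k * 2 ^ n + i) 0 (k * 2 ^ n + i)

lemma Dg_succ (n : ℕ) (k : ℤ) : Dg (n + 1) k = Dg n (2 * k) + Dg n (2 * k + 1) := by
  unfold Dg
  rw [pow_succ, mul_two, Finset.sum_range_add]
  congr 1
  · apply Finset.sum_congr rfl
    intro i _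
    rw [show k * (2:ℤ) ^ (n+1) + i = 2 * k * 2 ^ n + i by rw [pow_succ]; ring]
  · apply Finset.sum_congr rfl
    intro i _
    rw [show k * (2:ℤ) ^ (n+1) + ((2 ^ n + i : ℕ) : ℤ) = (2 * k + 1) * 2 ^ n + i by
      rw [pow_succ]; push_cast; ring]

lemma ind2_children1 (j k j' k' : ℤ) :
    ind2 j k j' k' = ind2 (j-1) (2*k) j' k' + ind2 (j-1) (2*k+1) j' k' := by
  apply Lp.ext
  filter_upwards [ind2_ae j k j' k', ind2_ae (j-1) (2*k) j' k', ind2_ae (j-1) (2*k+1) j' k',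
    Lp.coeFn_add (ind2 (j-1) (2*k) j' k') (ind2 (j-1) (2*k+1) j' k')] with p h1 h2 h3 h4
  rw [h4, Pi.add_apply, h1, h2, h3, dya_children j k,
    Set.indicator_union_of_disjoint (dya_children_disj j k)]
  ring

lemma ind2_children2 (j k j' k' : ℤ) :
    ind2 j k j' k' = ind2 j k (j'-1) (2*k') + ind2 j k (j'-1) (2*k'+1) := by
  apply Lp.ext
  filter_upwards [ind2_ae j k j' k', ind2_ae j k (j'-1) (2*k'), ind2_ae j k (j'-1) (2*k'+1),
    Lp.coeFn_add (ind2 j k (j'-1) (2*k')) (ind2 j k (j'-1) (2*k'+1))] with p h1 h2 h3 h4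
  rw [h4, Pi.add_apply, h1, h2, h3, dya_children j' k',
    Set.indicator_union_of_disjoint (dya_children_disj j' k')]
  ring

/-- `1_{K_- × K_-} + 1_{K_+ × K_+} = (1_{K × K} + |K| h_K ⊗ h_K)/2` -/
lemma sq_children (n : ℕ) (k : ℤ) : (1/2:ℝ) ^ n • (ind2 n (2*k) n (2*k) + ind2 n (2*k+1) n (2*k+1)) =
    (1/2:ℝ) ^ (n+1) • ind2 (n+1) k (n+1) k + haar2 (n+1) k (n+1) k := by
  have h1 := ind2_children1 (n+1) k (n+1) k
  have h2 := ind2_children2 ((n:ℤ)+1-1) (2*k) (n+1) k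
  have h3 := ind2_children2 ((n:ℤ)+1-1) (2*k+1) (n+1) k
  rw [h2, h3] at h1
  have h4 := haar2_eq (n+1) k (n+1) k
  have hw : wt ((n:ℤ)+1) * wt ((n:ℤ)+1) = (1/2) ^ (n+1) := by
    have := wt_sq ((n:ℤ)+1)
    have e : (2:ℝ) ^ ((n:ℤ)+1) = 2 ^ (n+1) := by
      rw [show ((n:ℤ)+1) = ((n+1 : ℕ):ℤ) by push_cast; ring, zpow_natCast]
    rw [e] at this
    rw [one_div, inv_pow, ← sq]
    exact eq_inv_of_mul_eq_one_left this
  rw [hw] at h4
  rw [h1, h4, add_sub_cancel_right, pow_succ]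
  module

/-- the diagonal minus its mean -/
def Rr (n : ℕ) (k : ℤ) : L22 := Dg n k - (1/2:ℝ) ^ n • ind2 n k n k

lemma Rr_zero (k : ℤ) : Rr 0 k = 0 := by
  unfold Rr Dg
  simp

lemma Rr_succ (n : ℕ) (k : ℤ) :
    Rr (n+1) k = Rr n (2*k) + Rr n (2*k+1) + haar2 (n+1) k (n+1) k := by
  have h := sq_children n k
  unfold Rr
  rw [Dg_succ]
  have h' : haar2 (n+1) k (n+1) k = (1/2:ℝ) ^ n • (ind2 n (2*k) n (2*k) + ind2 n (2*k+1) n (2*k+1)) -
      (1/2:ℝ) ^ (n+1) • ind2 (n+1) k (n+1) k := by rw [h]; abel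
  push_cast
  rw [h', smul_add]
  abel

theorem fixed {T : L22 →L[ℝ] L22} (hT : IsShift2 T) (n : ℕ) :
    ∀ k : ℤ, T (Rr n (2*k) + Rr n (2*k+1)) = Rr n (2*k) + Rr n (2*k+1) := by
  induction n with
  | zero => intro k; rw [Rr_zero, Rr_zero]; simp
  | succ n ih =>
    intro k
    have h := hT (n+2) k (n+2) k
    have e : (n:ℤ) + 2 - 1 = n + 1 := by ring
    rw [e] at h
    obtain ⟨h1, -, -, h4⟩ := h
    have e1 : Rr (n+1) (2*k) + Rr (n+1) (2*k+1) =
        (Rr n (2*(2*k)) + Rr n (2*(2*k)+1)) + (Rr n (2*(2*k+1)) + Rr n (2*(2*k+1)+1)) +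
          (haar2 (n+1) (2*k) (n+1) (2*k) + haar2 (n+1) (2*k+1) (n+1) (2*k+1)) := by
      rw [Rr_succ, Rr_succ]; abel
    rw [e1, map_add, map_add, ih, ih, map_add, h1, h4]
    abel

/-- the diagonal set -/
def U (n : ℕ) : Set (ℝ × ℝ) := ⋃ i ∈ Finset.range (2 ^ n), dya 0 i ×ˢ dya 0 i

lemma measurableSet_U (n : ℕ) : MeasurableSet (U n) :=
  Finset.measurableSet_biUnion _ fun _ _ => (measurableSet_dya _ _).prod (measurableSet_dya _ _)

lemma U_disj (n : ℕ) : (↑(Finset.range (2 ^ n)) : Set ℕ).PairwiseDisjoint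
    (fun i : ℕ => dya 0 (i:ℤ) ×ˢ dya 0 (i:ℤ)) := by
  intro i _ i' _ h
  exact Set.disjoint_prod.2 (Or.inl (dya_disjoint (by exact_mod_cast h)))

lemma volume_U (n : ℕ) : volume (U n) = 2 ^ n := by
  unfold U
  rw [measure_biUnion_finset (U_disj n) (fun _ _ => (measurableSet_dya _ _).prod (measurableSet_dya _ _))]
  have : ∀ i : ℕ, volume (dya 0 (i:ℤ) ×ˢ dya 0 (i:ℤ)) = 1 := by
    intro i
    rw [Measure.volume_eq_prod, Measure.prod_prod, volume_dya]; simp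
  simp [this]

lemma volume_U_ne_top (n : ℕ) : volume (U n) ≠ ⊤ := by
  rw [volume_U]; exact ENNReal.pow_ne_top (by norm_num)

lemma ind_U (n : ℕ) : indicatorConstLp 2 (measurableSet_U n) (volume_U_ne_top n) (1:ℝ) = Dg n 0 := by
  have h : ∀ s : Finset ℕ, ∀ᵐ p : ℝ × ℝ, (∑ i ∈ s, ind2 0 i 0 i : L22) p =
      ∑ i ∈ s, (dya 0 (i:ℤ) ×ˢ dya 0 (i:ℤ)).indicator (fun _ => (1:ℝ)) p := by
    intro s
    have h1 : ∀ i : ℕ, ∀ᵐ p : ℝ × ℝ, (ind2 0 i 0 i) p =
        (dya 0 (i:ℤ) ×ˢ dya 0 (i:ℤ)).indicator (fun _ => (1:ℝ)) p := fun i => indicatorConstLp_coeFn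
    have h2 := ae_all_iff.2 h1
    filter_upwards [h2, Lp.coeFn_finsetSum s (fun i : ℕ => ind2 0 (i:ℤ) 0 (i:ℤ))] with p hp hs
    rw [hs, Finset.sum_apply]
    exact Finset.sum_congr rfl fun i _ => hp i
  apply Lp.ext
  unfold Dg
  simp only [zero_mul, zero_add]
  filter_upwards [h (Finset.range (2 ^ n)), indicatorConstLp_coeFn (p := 2) (hs := measurableSet_U n)
    (hμs := volume_U_ne_top n) (c := (1:ℝ))] with p h1 h2
  rw [h1, h2]
  unfold U
  by_cases hp : p ∈ ⋃ i ∈ Finset.range (2 ^ n), dya 0 (i:ℤ) ×ˢ dya 0 (i:ℤ)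
  · rw [Set.indicator_of_mem hp]
    obtain ⟨i, hi, hpi⟩ := Set.mem_iUnion₂.1 hp
    rw [Finset.sum_eq_single i]
    · rw [Set.indicator_of_mem hpi]
    · intro i' hi' hne
      rw [Set.indicator_of_notMem]
      intro hp'
      exact Set.disjoint_left.1 (U_disj n (Finset.mem_coe.2 hi) (Finset.mem_coe.2 hi') (Ne.symm hne)) hpi hp'
    · intro h; exact absurd hi h
  · rw [Set.indicator_of_notMem hp]
    symm
    apply Finset.sum_eq_zero
    intro i hi
    rw [Set.indicator_of_notMem]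
    intro h
    exact hp (Set.mem_iUnion₂.2 ⟨i, hi, h⟩)

theorem diag_close {T : L22 →L[ℝ] L22} (hT : IsShift2 T) (n : ℕ) :
    ‖T (Dg (n+1) 0) - Dg (n+1) 0‖ ≤ 2 * (1 + ‖T‖) := by
  have h := fixed hT n 0
  set r : L22 := (1/2:ℝ) ^ n • ind2 n (2*0) n (2*0) + (1/2:ℝ) ^ n • ind2 n (2*0+1) n (2*0+1) with hr
  have e : Dg (n+1) 0 = (Rr n (2*0) + Rr n (2*0+1)) + r := by
    rw [Dg_succ, hr]; unfold Rr; abel
  have hrn : ‖r‖ ≤ 2 := by
    have h1 : ∀ m : ℤ, ‖(1/2:ℝ) ^ n • ind2 n m n m‖ = 1 := by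
      intro m
      rw [norm_smul, norm_ind2, ← Real.sqrt_mul (by positivity), Real.sqrt_mul_self (by positivity)]
      simp
    rw [hr]
    refine (norm_add_le _ _).trans ?_
    rw [h1, h1]; norm_num
  have e2 : T (Dg (n+1) 0) - Dg (n+1) 0 = T r - r := by
    rw [e, map_add, h]; abel
  rw [e2]
  calc ‖T r - r‖ ≤ ‖T r‖ + ‖r‖ := norm_sub_le _ _
    _ ≤ ‖T‖ * ‖r‖ + ‖r‖ := by gcongr; exact T.le_opNorm r
    _ = (1 + ‖T‖) * ‖r‖ := by ring
    _ ≤ (1 + ‖T‖) * 2 := by gcongr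
    _ = _ := by ring

theorem shift2_sup {T : L22 →L[ℝ] L22} (hT : IsShift2 T) {η : ℝ} (hη : η < 1) :
    ∃ (V : Set (ℝ × ℝ)) (hV : MeasurableSet V) (hf : volume V ≠ ⊤), 0 < volume V ∧
      η * (volume V).toReal < ∫ p in V, (T (indicatorConstLp 2 hV hf (1:ℝ))) p ^ 2 := by
  set ε := (1 - η) / 2 with hε
  have hε0 : 0 < ε := by rw [hε]; linarith
  set c := 2 * (1 + ‖T‖) with hc
  obtain ⟨n, hn⟩ := pow_unbounded_of_one_lt (c ^ 2 / ε / ε) (by norm_num : (1:ℝ) < 2)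
  refine ⟨U (n+1), measurableSet_U _, volume_U_ne_top _, by rw [volume_U]; positivity, ?_⟩
  set f := indicatorConstLp 2 (measurableSet_U (n+1)) (volume_U_ne_top (n+1)) (1:ℝ) with hf
  have hclose : ‖T f - f‖ ≤ c := by rw [hf, ind_U]; exact diag_close hT n
  have hvol : (volume (U (n+1))).toReal = 2 ^ (n+1) := by rw [volume_U]; simp
  set g := T f with hg
  set d : L22 := g - f with hd
  have hdi : Integrable (fun p => d p * d p) := (Lp.memLp d).integrable_mul (Lp.memLp d)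
  have hd2 : ∫ p, d p * d p ≤ c ^ 2 := by
    have : ∫ p, d p * d p = ‖d‖ ^ 2 := by
      rw [← real_inner_self_eq_norm_sq, L2.inner_def]
      congr 1
    rw [this]
    exact pow_le_pow_left₀ (norm_nonneg _) hclose 2
  have hgi : Integrable (fun p => g p ^ 2) := by
    have := (Lp.memLp g).integrable_mul (Lp.memLp g)
    refine this.congr (Eventually.of_forall fun p => ?_)
    simp [sq]
  have hpt : ∀ᵐ p : ℝ × ℝ, p ∈ U (n+1) → (1 - ε) - 1/ε * (d p * d p) ≤ g p ^ 2 := by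
    filter_upwards [Lp.coeFn_sub g f, indicatorConstLp_coeFn (p := 2) (hs := measurableSet_U (n+1))
      (hμs := volume_U_ne_top (n+1)) (c := (1:ℝ))] with p h1 h2 hp
    have h3 : f p = 1 := by rw [hf, h2, Set.indicator_of_mem hp]
    have h4 : d p = g p - 1 := by rw [hd, h1, Pi.sub_apply, h3]
    have h5 : g p = 1 + d p := by rw [h4]; ring
    rw [h5]
    have h6 : 0 ≤ (ε + d p) ^ 2 / ε := by positivity
    have h7 : (ε + d p) ^ 2 / ε = ε + 2 * d p + 1/ε * (d p * d p) := by field_simp; ring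
    nlinarith [mul_self_nonneg (d p)]
  have hint : ∫ p in U (n+1), ((1 - ε) - 1/ε * (d p * d p)) ≤ ∫ p in U (n+1), g p ^ 2 := by
    apply setIntegral_mono_on_ae
    · exact (integrableOn_const (volume_U_ne_top _)).sub (hdi.integrableOn.const_mul _)
    · exact hgi.integrableOn
    · exact measurableSet_U _
    · exact hpt
  have h1 : ∫ p in U (n+1), ((1 - ε) - 1/ε * (d p * d p)) =
      2 ^ (n+1) * (1 - ε) - 1/ε * ∫ p in U (n+1), d p * d p := by
    have j1 : IntegrableOn (fun _ : ℝ × ℝ => 1 - ε) (U (n+1)) volume :=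
      integrableOn_const (volume_U_ne_top _)
    have j2 : IntegrableOn (fun p : ℝ × ℝ => 1/ε * (d p * d p)) (U (n+1)) volume :=
      hdi.integrableOn.const_mul _
    rw [integral_sub j1 j2, setIntegral_const, integral_const_mul, measureReal_def, hvol, smul_eq_mul]
  have h2 : ∫ p in U (n+1), d p * d p ≤ c ^ 2 := by
    refine le_trans ?_ hd2
    apply setIntegral_le_integral hdi
    exact Eventually.of_forall fun p => mul_self_nonneg _
  have h3 : 1/ε * ∫ p in U (n+1), d p * d p ≤ 1/ε * c ^ 2 := by gcongr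
  rw [hvol]
  have h4 : c ^ 2 / ε < ε * 2 ^ n := by
    rw [div_lt_iff₀ hε0] at hn; linarith
  have h5 : 1/ε * c ^ 2 = c ^ 2 / ε := by ring
  have h6 : η = 1 - 2 * ε := by rw [hε]; ring
  have h7 : (0:ℝ) < 2 ^ n := by positivity
  rw [h1] at hint
  rw [pow_succ] at hint ⊢
  rw [h6]
  nlinarith

end Pool.Agent.R243.HS
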