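import Pool.Agent.R243.HS.Shift
set_option autoImplicit false
open MeasureTheory Set Filter Topology
noncomputable section
namespace Pool.Agent.R243.HS

section V
variable {V : Set ℝ} (hV : MeasurableSet V) (hf : volume V ≠ ⊤)

/-- the indicator of `V` in `L²` -/
def fV : L2 := indicatorConstLp 2 hV hf (1:ℝ)

/-- density of `V` in a dyadic interval -/
def de (V : Set ℝ) (j k : ℤ) : ℝ := volume.real (dya j k ∩ V) / (2:ℝ) ^ j

lemma de_nonneg (V : Set ℝ) (j k : ℤ) : 0 ≤ de V j k := by unfold de; positivity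

lemma A_fV (j k : ℤ) : A (fV hV hf) j k = de V j k * (2:ℝ) ^ j := by
  unfold fV de
  rw [A_indicator]
  field_simp

include hf in
lemma fin_inter (j k : ℤ) : volume (dya j k ∩ V) ≠ ⊤ :=
  ne_top_of_le_ne_top hf (measure_mono Set.inter_subset_right)

include hV hf in
lemma de_children (j k : ℤ) : de V j k = (de V (j-1) (2*k) + de V (j-1) (2*k+1)) / 2 := by
  have := A_children (fV hV hf) j k
  rw [A_fV, A_fV, A_fV, zpow_sub_one₀ (by norm_num : (2:ℝ) ≠ 0)] at this
  have h : (0:ℝ) < (2:ℝ) ^ j := by positivity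
  have h2 : de V j k * (2:ℝ) ^ j = ((de V (j-1) (2*k) + de V (j-1) (2*k+1)) / 2) * (2:ℝ) ^ j := by
    rw [this]; ring
  exact mul_right_cancel₀ h.ne' h2

include hf in
lemma de_par (j k : ℤ) : de V j k ≤ 2 * de V (j+1) (k/2) := by
  have h1 : volume.real (dya j k ∩ V) ≤ volume.real (dya (j+1) (k/2) ∩ V) := by
    refine measureReal_mono (Set.inter_subset_inter_left _ ?_) (fin_inter hf _ _)
    have := dya_subset_par (j+1) k
    rwa [add_sub_cancel_right] at this
  unfold de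
  rw [zpow_add_one₀ (by norm_num : (2:ℝ) ≠ 0)]
  have h : (0:ℝ) < (2:ℝ) ^ j := by positivity
  rw [div_le_iff₀ h]
  calc volume.real (dya j k ∩ V) ≤ volume.real (dya (j+1) (k/2) ∩ V) := h1
    _ = _ := by field_simp

/-- the indicator of `V` in a dyadic interval, minus its mean -/
def vK (j k : ℤ) : L2 :=
  indicatorConstLp 2 ((measurableSet_dya j k).inter hV) (fin_inter hf j k) (1:ℝ) - de V j k • ind j k

lemma A_vK_in (j k m : ℤ) (n : ℕ) (h : m / 2 ^ n = k) :
    A (vK hV hf j k) (j - n) m = A (fV hV hf) (j - n) m - de V j k * (2:ℝ) ^ (j - n) := by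
  unfold vK
  rw [A_sub, A_smul, A_indicator, A_fV]
  have h1 := A_ind (j - n) k m n
  rw [sub_add_cancel, if_pos h] at h1
  rw [h1]
  have h2 : dya (j - n) m ∩ (dya j k ∩ V) = dya (j - n) m ∩ V := by
    rw [← Set.inter_assoc]
    congr 1
    have := dya_subset_anc (j - n) m n
    rw [sub_add_cancel, h] at this
    exact Set.inter_eq_left.2 this
  rw [h2]
  unfold de
  field_simp

lemma A_vK_out (j k m : ℤ) (n : ℕ) (h : m / 2 ^ n ≠ k) : A (vK hV hf j k) (j - n) m = 0 := by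
  unfold vK
  rw [A_sub, A_smul, A_indicator]
  have h1 := A_ind (j - n) k m n
  rw [sub_add_cancel, if_neg h] at h1
  rw [h1]
  have h2 : dya (j - n) m ∩ (dya j k ∩ V) = ∅ := by
    rw [← Set.inter_assoc]
    have := dya_disjoint_anc (j := j - n) h
    rw [sub_add_cancel] at this
    rw [this.inter_eq, Set.empty_inter]
  rw [h2]
  simp

lemma A_ind_up (j k m : ℤ) (n : ℕ) :
    A (ind j k) (j + n) m = if k / 2 ^ n = m then (2:ℝ) ^ j else 0 := by
  unfold ind
  rw [A_indicator]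
  split_ifs with h
  · rw [Set.inter_eq_right.2 (h ▸ dya_subset_anc j k n), volume_real_dya]
  · rw [(dya_disjoint_anc h).symm.inter_eq]; simp

lemma A_vK_up (j k m : ℤ) (n : ℕ) : A (vK hV hf j k) (j + n) m = 0 := by
  unfold vK
  rw [A_sub, A_smul, A_indicator, A_ind_up]
  split_ifs with h
  · have h2 : dya (j + n) m ∩ (dya j k ∩ V) = dya j k ∩ V := by
      rw [← Set.inter_assoc,
        Set.inter_eq_right.2 (show dya j k ⊆ dya (j + n) m from h ▸ dya_subset_anc j k n)]
    rw [h2]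
    unfold de
    field_simp
    simp
  · have h2 : dya (j + n) m ∩ (dya j k ∩ V) = ∅ := by
      rw [← Set.inter_assoc, (dya_disjoint_anc h).symm.inter_eq, Set.empty_inter]
    rw [h2]
    simp

lemma child_anc (m : ℤ) (n : ℕ) : (2 * m + 1) / 2 ^ (n + 1) = m / 2 ^ n ∧
    (2 * m) / 2 ^ (n + 1) = m / 2 ^ n := by
  rw [pow_succ', ← Int.ediv_ediv_of_nonneg (by norm_num), ← Int.ediv_ediv_of_nonneg (by norm_num)]
  constructor
  · congr 1; omega
  · congr 1; omega

lemma cf_vK_in (j k m : ℤ) (n : ℕ) (h : m / 2 ^ n = k) :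
    cf (vK hV hf j k) (j - n) m = cf (fV hV hf) (j - n) m := by
  rw [cf_eq, cf_eq]
  have e : j - (n:ℤ) - 1 = j - ((n + 1 : ℕ):ℤ) := by push_cast; ring
  obtain ⟨h1, h2⟩ := child_anc m n
  rw [e, A_vK_in hV hf j k _ (n+1) (h1.trans h), A_vK_in hV hf j k _ (n+1) (h2.trans h)]
  ring

lemma cf_vK_out (j k m : ℤ) (n : ℕ) (h : m / 2 ^ n ≠ k) :
    cf (vK hV hf j k) (j - n) m = 0 := by
  rw [cf_eq]
  have e : j - (n:ℤ) - 1 = j - ((n + 1 : ℕ):ℤ) := by push_cast; ring
  obtain ⟨h1, h2⟩ := child_anc m n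
  rw [e, A_vK_out hV hf j k _ (n+1) (h1 ▸ h), A_vK_out hV hf j k _ (n+1) (h2 ▸ h)]
  ring

lemma cf_vK_up (j k m : ℤ) (n : ℕ) : cf (vK hV hf j k) (j + n + 1) m = 0 := by
  rw [cf_eq, add_sub_cancel_right, A_vK_up, A_vK_up]
  ring

/-- the part of `V` inside `dya j k`, with the means of the two halves removed -/
def uC (j k : ℤ) : L2 := vK hV hf (j-1) (2*k) + vK hV hf (j-1) (2*k+1)

lemma cf_add (u v : L2) (j k : ℤ) : cf (u + v) j k = cf u j k + cf v j k := by
  unfold cf; rw [inner_add_right]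

lemma cf_sub (u v : L2) (j k : ℤ) : cf (u - v) j k = cf u j k - cf v j k := by
  unfold cf; rw [inner_sub_right]

/-- `dya i m` is strictly inside `dya j k` -/
def In (j k i m : ℤ) : Prop := ∃ n : ℕ, i = j - 1 - n ∧ m / 2 ^ (n+1) = k

lemma cf_uC_in {j k i m : ℤ} (h : In j k i m) : cf (uC hV hf j k) i m = cf (fV hV hf) i m := by
  obtain ⟨n, rfl, h⟩ := h
  unfold uC
  rw [cf_add]
  have h3 : m / 2 ^ n / 2 = k := by
    rw [Int.ediv_ediv_of_nonneg (by positivity), ← pow_succ]; exact h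
  rcases Int.emod_two_eq_zero_or_one (m / 2 ^ n) with h0 | h0
  · rw [cf_vK_in hV hf (j-1) (2*k) m n (by omega), cf_vK_out hV hf (j-1) (2*k+1) m n (by omega), add_zero]
  · rw [cf_vK_out hV hf (j-1) (2*k) m n (by omega), cf_vK_in hV hf (j-1) (2*k+1) m n (by omega), zero_add]

lemma cf_uC_out {j k i m : ℤ} (h : ¬ In j k i m) : cf (uC hV hf j k) i m = 0 := by
  unfold uC
  rw [cf_add]
  rcases le_or_gt i (j-1) with hi | hi
  · obtain ⟨n, hn⟩ : ∃ n : ℕ, i = j - 1 - n := ⟨(j - 1 - i).toNat, by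
      rw [Int.toNat_of_nonneg (by omega)]; ring⟩
    subst hn
    have h1 : ¬ m / 2 ^ n / 2 = k := by
      rw [Int.ediv_ediv_of_nonneg (by positivity), ← pow_succ]
      exact fun h' => h ⟨n, rfl, h'⟩
    rw [cf_vK_out hV hf (j-1) (2*k) m n (by omega), cf_vK_out hV hf (j-1) (2*k+1) m n (by omega), add_zero]
  · obtain ⟨n, hn⟩ : ∃ n : ℕ, i = (j - 1) + n + 1 := ⟨(i - j).toNat, by
      rw [Int.toNat_of_nonneg (by omega)]; ring⟩
    subst hn
    rw [cf_vK_up, cf_vK_up, add_zero]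

lemma In_sib {j k i m : ℤ} (h : In j k i m) : In j k i (sib m) := by
  obtain ⟨n, h1, h2⟩ := h
  exact ⟨n, h1, by rw [sib_anc m (by omega)]; exact h2⟩

lemma inner_zero_of {u w : L2} (h : ∀ i m, cf u i m = 0 ∨ cf w i m = 0) : inner ℝ u w = 0 := by
  have hB := HilbertBasis.coe_mkOfOrthogonalEqBot hb_orthonormal (span_perp hb_complete)
  set B := HilbertBasis.mkOfOrthogonalEqBot hb_orthonormal (span_perp hb_complete)
  rw [← B.tsum_inner_mul_inner u w]
  rw [← tsum_zero (α := ℝ) (β := ℤ × ℤ)]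
  congr 1
  funext i
  rw [hB]
  rcases h i.1 i.2 with h | h
  · unfold cf at h
    rw [real_inner_comm]
    unfold hb
    rw [h, zero_mul]
  · unfold cf at h
    unfold hb
    rw [h, mul_zero]

variable {T : L2 →L[ℝ] L2}

lemma inner_self_shift (hT : IsShift T) (u : L2) : inner ℝ u (T u) = 0 := by
  have h := shift_antisymm hT u u
  rw [real_inner_comm] at h
  linarith

lemma inner_uC (hT : IsShift T) (j k : ℤ) : inner ℝ (uC hV hf j k) (T (fV hV hf)) = 0 := by
  have e : T (fV hV hf) = T (fV hV hf - uC hV hf j k) + T (uC hV hf j k) := by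
    rw [← map_add, sub_add_cancel]
  rw [e, inner_add_right, inner_self_shift hT, add_zero]
  refine inner_zero_of fun i m => ?_
  by_cases h : In j k i m
  · right
    rw [cf_shift hT, cf_sub, cf_uC_in hV hf (In_sib h)]
    ring
  · left
    exact cf_uC_out hV hf h

lemma inner_vK (u : L2) (j k : ℤ) : inner ℝ (vK hV hf j k) u =
    (∫ x in dya j k ∩ V, u x) - de V j k * A u j k := by
  unfold vK
  rw [inner_sub_left, inner_smul_left, inner_ind, L2.inner_indicatorConstLp_one]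
  simp

/-- the key identity -/
lemma key (hT : IsShift T) (j k : ℤ) : ∫ x in dya j k ∩ V, (T (fV hV hf)) x =
    de V (j-1) (2*k) * A (T (fV hV hf)) (j-1) (2*k) +
      de V (j-1) (2*k+1) * A (T (fV hV hf)) (j-1) (2*k+1) := by
  have h := inner_uC hV hf hT j k
  unfold uC at h
  rw [inner_add_left, inner_vK, inner_vK] at h
  have h2 : ∫ x in dya j k ∩ V, (T (fV hV hf)) x =
      (∫ x in dya (j-1) (2*k) ∩ V, (T (fV hV hf)) x) + ∫ x in dya (j-1) (2*k+1) ∩ V, (T (fV hV hf)) x := by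
    rw [dya_children j k, Set.union_inter_distrib_right, setIntegral_union]
    · exact (dya_children_disj j k).mono Set.inter_subset_left Set.inter_subset_left
    · exact (measurableSet_dya _ _).inter hV
    · exact integrableOn_L2 _ (fin_inter hf _ _)
    · exact integrableOn_L2 _ (fin_inter hf _ _)
  rw [h2]
  linarith

lemma err_bound (hT : IsShift T) (j k : ℤ) :
    |(∫ x in dya j k ∩ V, (T (fV hV hf)) x) - de V j k * A (T (fV hV hf)) j k| ≤
      de V j k * de V j (sib k) * (2:ℝ) ^ j := by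
  have h1 := key hV hf hT j k
  have h2 := de_children hV hf j k
  have h3 := A_children (T (fV hV hf)) j k
  have h4 := cf_shift hT (fV hV hf) j k
  rw [cf_eq, cf_eq] at h4
  have hw := wt_pos j
  have h5 : A (T (fV hV hf)) (j-1) (2*k+1) - A (T (fV hV hf)) (j-1) (2*k) =
      - sg k * (A (fV hV hf) (j-1) (2*(sib k)+1) - A (fV hV hf) (j-1) (2*(sib k))) := by
    have : wt j * (A (T (fV hV hf)) (j-1) (2*k+1) - A (T (fV hV hf)) (j-1) (2*k)) =
      wt j * (- sg k * (A (fV hV hf) (j-1) (2*(sib k)+1) - A (fV hV hf) (j-1) (2*(sib k)))) := by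
      rw [h4]; ring
    exact mul_left_cancel₀ hw.ne' this
  have h6 := A_children (fV hV hf) j (sib k)
  have h7 : 0 ≤ A (fV hV hf) (j-1) (2*(sib k)+1) := by
    rw [A_fV]; exact mul_nonneg (de_nonneg _ _ _) (by positivity)
  have h8 : 0 ≤ A (fV hV hf) (j-1) (2*(sib k)) := by
    rw [A_fV]; exact mul_nonneg (de_nonneg _ _ _) (by positivity)
  have h9 : A (fV hV hf) j (sib k) = de V j (sib k) * (2:ℝ) ^ j := A_fV hV hf _ _
  have hs : |sg k| = 1 := by unfold sg; split_ifs <;> norm_num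
  have h10 : |A (T (fV hV hf)) (j-1) (2*k+1) - A (T (fV hV hf)) (j-1) (2*k)| ≤
      de V j (sib k) * (2:ℝ) ^ j := by
    rw [h5, abs_mul, abs_neg, hs, one_mul, ← h9, h6, abs_le]
    constructor <;> linarith
  have h11 : (∫ x in dya j k ∩ V, (T (fV hV hf)) x) - de V j k * A (T (fV hV hf)) j k =
      (de V (j-1) (2*k+1) - de V (j-1) (2*k)) / 2 *
        (A (T (fV hV hf)) (j-1) (2*k+1) - A (T (fV hV hf)) (j-1) (2*k)) := by
    rw [h1, h2, h3]; ring
  have h12 : |(de V (j-1) (2*k+1) - de V (j-1) (2*k)) / 2| ≤ de V j k := by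
    have := de_nonneg V (j-1) (2*k)
    have := de_nonneg V (j-1) (2*k+1)
    rw [h2, abs_le]
    constructor <;> linarith
  rw [h11, abs_mul]
  calc _ ≤ de V j k * (de V j (sib k) * (2:ℝ) ^ j) :=
        mul_le_mul h12 h10 (abs_nonneg _) (de_nonneg _ _ _)
    _ = _ := by ring

end V
end Pool.Agent.R243.HS
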