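import Pool.Agent.R243.HS.Stop
set_option autoImplicit false
open MeasureTheory Set Filter Topology
noncomputable section
namespace Pool.Agent.R243.HS

section V
variable {V : Set ℝ} (hV : MeasurableSet V) (hf : volume V ≠ ⊤)

/-- the low density part of the indicator of `V` -/
def ph : L2 := (phi_memLp hV hf).toLp

lemma ph_ae : ph hV hf =ᵐ[volume] phi V := MemLp.coeFn_toLp _

lemma fV_ae : fV hV hf =ᵐ[volume] V.indicator (fun _ => (1:ℝ)) := indicatorConstLp_coeFn

lemma mulI (u v : L2) : Integrable (fun x => u x * v x) volume :=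
  (Lp.memLp u).integrable_mul (Lp.memLp v)

lemma A_ph {P : ℤ × ℤ} (hP : P ∈ Mx V) (m : ℤ) (n : ℕ) (h : m / 2 ^ n = P.2) :
    A (ph hV hf) (P.1 - n) m = de V P.1 P.2 * (2:ℝ) ^ (P.1 - n) := by
  unfold A
  have h1 : dya (P.1 - n) m ⊆ dya P.1 P.2 := by
    have := dya_subset_anc (P.1 - n) m n
    rwa [sub_add_cancel, h] at this
  have h2 : ∫ x in dya (P.1 - n) m, (ph hV hf) x = ∫ x in dya (P.1 - n) m, de V P.1 P.2 := by
    apply setIntegral_congr_ae (measurableSet_dya _ _)
    filter_upwards [ph_ae hV hf] with x hx hx'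
    rw [hx, phi_in hP (h1 hx')]
  rw [h2, setIntegral_const, volume_real_dya, smul_eq_mul, mul_comm]

lemma cf_ph {P : ℤ × ℤ} (hP : P ∈ Mx V) (m : ℤ) (n : ℕ) (h : m / 2 ^ n = P.2) :
    cf (ph hV hf) (P.1 - n) m = 0 := by
  rw [cf_eq]
  have e : P.1 - (n:ℤ) - 1 = P.1 - ((n + 1 : ℕ):ℤ) := by push_cast; ring
  obtain ⟨h1, h2⟩ := child_anc m n
  rw [e, A_ph hV hf hP _ (n+1) (h1.trans h), A_ph hV hf hP _ (n+1) (h2.trans h)]
  ring

variable {T : L2 →L[ℝ] L2}

/-- `T φ` is constant on the children of the maximal intervals -/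
lemma G_const (hT : IsShift T) {P : ℤ × ℤ} (hP : P ∈ Mx V) (c : ℤ) (hc : c / 2 = P.2) :
    ∀ᵐ x ∂(volume.restrict (dya (P.1 - 1) c)), (T (ph hV hf)) x =
      A (T (ph hV hf)) (P.1 - 1) c / 2 ^ (P.1 - 1) := by
  apply const_on
  intro n m hm
  rw [cf_shift hT]
  have e : P.1 - 1 - (n:ℤ) = P.1 - ((n + 1 : ℕ):ℤ) := by push_cast; ring
  rw [e, cf_ph hV hf hP (sib m) (n+1), mul_zero]
  rw [sib_anc m (by omega), pow_succ, ← Int.ediv_ediv_of_nonneg (by positivity), hm]
  exact hc

lemma child_bound (hT : IsShift T) {P : ℤ × ℤ} (hP : P ∈ Mx V) (c : ℤ) (hc : c / 2 = P.2) :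
    ∫ x in dya (P.1 - 1) c, (T (fV hV hf)) x * (T (ph hV hf)) x ≤
      ∫ x in dya (P.1 - 1) c, 3/2 * (|(T (ph hV hf)) x| * |(T (fV hV hf)) x| *
        (1 - V.indicator (fun _ => (1:ℝ)) x) + 1/6 * (phi V x * |(T (ph hV hf)) x|)) := by
  set g := T (fV hV hf) with hg
  set G := T (ph hV hf) with hG
  set j := P.1 - 1 with hj
  set γ := A G j c / 2 ^ j with hγ
  have hconst : ∀ᵐ x, x ∈ dya j c → G x = γ :=
    (ae_restrict_iff' (measurableSet_dya _ _)).1 (G_const hV hf hT hP c hc)
  have hsub : dya j c ⊆ dya P.1 P.2 := by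
    have := dya_subset_par P.1 c
    rwa [hc] at this
  have hpos : (0:ℝ) < (2:ℝ) ^ j := by positivity
  have hgi : IntegrableOn g (dya j c) := integrableOn_L2 g (volume_dya_ne_top _ _)
  have hgV : IntegrableOn (fun x => |g x| * (1 - V.indicator (fun _ => (1:ℝ)) x)) (dya j c) := by
    refine Integrable.mono' hgi.norm ?_ (Eventually.of_forall fun x => ?_)
    · refine (hgi.norm.aestronglyMeasurable).mul ?_
      exact (aestronglyMeasurable_const.sub (aestronglyMeasurable_const.indicator hV))
    · rw [Real.norm_eq_abs, abs_mul, abs_abs, Real.norm_eq_abs]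
      have : |1 - V.indicator (fun _ => (1:ℝ)) x| ≤ 1 := by
        by_cases hx : x ∈ V
        · rw [Set.indicator_of_mem hx]; norm_num
        · rw [Set.indicator_of_notMem hx]; norm_num
      calc |g x| * |1 - V.indicator (fun _ => (1:ℝ)) x| ≤ |g x| * 1 := by gcongr
        _ = |g x| := mul_one _
  -- left side
  have hL : ∫ x in dya j c, g x * G x = γ * A g j c := by
    have : ∫ x in dya j c, g x * G x = ∫ x in dya j c, γ * g x := by
      apply setIntegral_congr_ae (measurableSet_dya _ _)
      filter_upwards [hconst] with x hx hx'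
      rw [hx hx', mul_comm]
    rw [this, integral_const_mul]; rfl
  set I1 := ∫ x in dya j c, |g x| * (1 - V.indicator (fun _ => (1:ℝ)) x) with hI1
  have hR : ∫ x in dya j c, 3/2 * (|G x| * |g x| * (1 - V.indicator (fun _ => (1:ℝ)) x) +
      1/6 * (phi V x * |G x|)) = 3/2 * |γ| * (I1 + 1/6 * (de V P.1 P.2 * (2:ℝ) ^ j)) := by
    have : ∫ x in dya j c, 3/2 * (|G x| * |g x| * (1 - V.indicator (fun _ => (1:ℝ)) x) +
      1/6 * (phi V x * |G x|)) = ∫ x in dya j c, 3/2 * |γ| *
        ((|g x| * (1 - V.indicator (fun _ => (1:ℝ)) x)) + 1/6 * de V P.1 P.2) := by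
      apply setIntegral_congr_ae (measurableSet_dya _ _)
      filter_upwards [hconst] with x hx hx'
      rw [hx hx', phi_in hP (hsub hx')]
      ring
    have hfin : volume (dya j c) ≠ ⊤ := volume_dya_ne_top _ _
    rw [this, integral_const_mul, integral_add hgV (integrableOn_const hfin), setIntegral_const,
      volume_real_dya, smul_eq_mul]
    ring
  rw [hL, hR]
  -- the error term
  set d := de V j c with hd
  set d' := de V j (sib c) with hd'
  have hd0 : 0 ≤ d := de_nonneg _ _ _
  have hd0' : 0 ≤ d' := de_nonneg _ _ _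
  have hsum : d + d' = 2 * de V P.1 P.2 := by
    have h := de_children hV hf P.1 P.2
    rw [← hj] at h
    rcases Int.emod_two_eq_zero_or_one c with h0 | h0
    · have h1 : 2 * P.2 = c := by omega
      have h2 : 2 * P.2 + 1 = sib c := by unfold sib; rw [if_pos h0]; omega
      rw [h1] at h h2
      rw [h, hd, hd', ← h2]
      ring
    · have h1 : 2 * P.2 + 1 = c := by omega
      have h2 : 2 * P.2 = sib c := by unfold sib; rw [if_neg (by omega)]; omega
      rw [h1, h2] at h
      rw [h, hd, hd']
      ring
  have haP := Mx_le hf hP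
  have haP0 := de_nonneg V P.1 P.2
  have hdd : d * d' ≤ 1/6 * de V P.1 P.2 := by nlinarith [sq_nonneg (d - d')]
  have hd3 : d ≤ 1/3 := by linarith
  have herr := err_bound hV hf hT j c
  rw [← hg] at herr
  set E := ∫ x in dya j c ∩ V, g x with hE
  -- split A g
  have hsplit : |A g j c - E| ≤ I1 := by
    have e1 : A g j c - E = ∫ x in dya j c, g x * (1 - V.indicator (fun _ => (1:ℝ)) x) := by
      have e2 : E = ∫ x in dya j c, g x * V.indicator (fun _ => (1:ℝ)) x := by
        have : (fun x => g x * V.indicator (fun _ => (1:ℝ)) x) = V.indicator g := by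
          funext x
          by_cases hx : x ∈ V
          · rw [Set.indicator_of_mem hx, Set.indicator_of_mem hx, mul_one]
          · rw [Set.indicator_of_notMem hx, Set.indicator_of_notMem hx, mul_zero]
        rw [this, setIntegral_indicator hV]
      have hgV' : IntegrableOn (fun x => g x * V.indicator (fun _ => (1:ℝ)) x) (dya j c) := by
        have : (fun x => g x * V.indicator (fun _ => (1:ℝ)) x) = V.indicator g := by
          funext x
          by_cases hx : x ∈ V
          · rw [Set.indicator_of_mem hx, Set.indicator_of_mem hx, mul_one]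
          · rw [Set.indicator_of_notMem hx, Set.indicator_of_notMem hx, mul_zero]
        rw [this]
        exact hgi.indicator hV
      unfold A
      rw [e2, ← integral_sub hgi hgV']
      apply integral_congr_ae
      filter_upwards with x
      ring
    rw [e1]
    refine (abs_integral_le_integral_abs).trans (le_of_eq ?_)
    rw [hI1]
    apply integral_congr_ae
    filter_upwards with x
    rw [abs_mul]
    congr 1
    apply abs_of_nonneg
    by_cases hx : x ∈ V
    · rw [Set.indicator_of_mem hx]; norm_num
    · rw [Set.indicator_of_notMem hx]; norm_num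
  -- conclusion
  have hI0 : 0 ≤ I1 := (abs_nonneg _).trans hsplit
  have h1 : (1 - d) * |A g j c| ≤ I1 + 1/6 * de V P.1 P.2 * (2:ℝ) ^ j := by
    have e : (1 - d) * A g j c = (A g j c - E) + (E - d * A g j c) := by ring
    have e2 : (1 - d) * |A g j c| = |(1 - d) * A g j c| := by
      rw [abs_mul, abs_of_nonneg (by linarith : 0 ≤ 1 - d)]
    rw [e2, e]
    refine (abs_add_le _ _).trans (add_le_add hsplit (herr.trans ?_))
    exact mul_le_mul_of_nonneg_right hdd hpos.le
  have h2 : |A g j c| ≤ 3/2 * (I1 + 1/6 * de V P.1 P.2 * (2:ℝ) ^ j) := by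
    have := abs_nonneg (A g j c)
    nlinarith
  calc γ * A g j c ≤ |γ| * |A g j c| := by rw [← abs_mul]; exact le_abs_self _
    _ ≤ |γ| * (3/2 * (I1 + 1/6 * de V P.1 P.2 * (2:ℝ) ^ j)) := by gcongr
    _ = _ := by ring

lemma ind_nonneg (V : Set ℝ) (x : ℝ) : 0 ≤ V.indicator (fun _ => (1:ℝ)) x ∧
    V.indicator (fun _ => (1:ℝ)) x ≤ 1 := by
  by_cases hx : x ∈ V
  · rw [Set.indicator_of_mem hx]; norm_num
  · rw [Set.indicator_of_notMem hx]; norm_num

include hV in
lemma int_one_sub {F : ℝ → ℝ} (hF : Integrable F) :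
    Integrable (fun x => F x * (1 - V.indicator (fun _ => (1:ℝ)) x)) := by
  refine Integrable.mono' hF.norm ?_ (Eventually.of_forall fun x => ?_)
  · refine hF.aestronglyMeasurable.mul ?_
    exact (aestronglyMeasurable_const.sub (aestronglyMeasurable_const.indicator hV))
  · have h := ind_nonneg V x
    rw [Real.norm_eq_abs, abs_mul, Real.norm_eq_abs, abs_of_nonneg (by linarith : 0 ≤ 1 - V.indicator (fun _ => (1:ℝ)) x)]
    calc |F x| * (1 - V.indicator (fun _ => (1:ℝ)) x) ≤ |F x| * 1 := by
          apply mul_le_mul_of_nonneg_left _ (abs_nonneg _); linarith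
      _ = |F x| := mul_one _

include hV hf in
lemma int_phi (u : L2) : Integrable (fun x => phi V x * |u x|) :=
  (phi_memLp hV hf).integrable_mul (Lp.memLp u).norm

lemma main_ineq (hT : IsShift T) :
    ∫ x, (T (fV hV hf)) x * (T (ph hV hf)) x ≤
      ∫ x, 3/2 * (|(T (ph hV hf)) x| * |(T (fV hV hf)) x| *
        (1 - V.indicator (fun _ => (1:ℝ)) x) + 1/6 * (phi V x * |(T (ph hV hf)) x|)) := by
  set g := T (fV hV hf) with hg
  set G := T (ph hV hf) with hG
  have i1 : Integrable (fun x => g x * G x) := mulI g G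
  have i2 : Integrable (fun x => |G x| * |g x| * (1 - V.indicator (fun _ => (1:ℝ)) x)) := by
    apply int_one_sub hV
    exact (Lp.memLp G).norm.integrable_mul (Lp.memLp g).norm
  have i3 : Integrable (fun x => phi V x * |G x|) := int_phi hV hf G
  have i4 : Integrable (fun x => 3/2 * (|G x| * |g x| *
        (1 - V.indicator (fun _ => (1:ℝ)) x) + 1/6 * (phi V x * |G x|))) :=
    (i2.add (i3.const_mul _)).const_mul _
  have i5 : Integrable (fun x => g x * G x - 3/2 * (|G x| * |g x| *
        (1 - V.indicator (fun _ => (1:ℝ)) x) + 1/6 * (phi V x * |G x|))) := i1.sub i4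
  rw [← sub_nonpos, ← integral_sub i1 i4]
  apply sum_le (V := V) i5
  · intro P hP
    rw [dya_children P.1 P.2, setIntegral_union (dya_children_disj _ _) (measurableSet_dya _ _)
      i5.integrableOn i5.integrableOn]
    have h1 := child_bound hV hf hT hP (2 * P.2) (by omega)
    have h2 := child_bound hV hf hT hP (2 * P.2 + 1) (by omega)
    rw [integral_sub i1.integrableOn i4.integrableOn, integral_sub i1.integrableOn i4.integrableOn]
    linarith
  · filter_upwards [cover hV hf] with x hx hxW
    have hxV : x ∉ V := by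
      intro h
      obtain ⟨P, hP, hxP⟩ := hx h
      exact hxW (Set.mem_iUnion.2 ⟨⟨P, hP⟩, hxP⟩)
    rw [phi_out hxW, Set.indicator_of_notMem hxV]
    have h1 : g x * G x ≤ |G x| * |g x| := by
      rw [← abs_mul, mul_comm]; exact le_abs_self _
    have h2 : 0 ≤ |G x| * |g x| := by positivity
    nlinarith

lemma inner_int (u v : L2) : inner ℝ u v = ∫ x, u x * v x := by
  rw [L2.inner_def]
  congr 1
  funext x
  simp [mul_comm]

include hV hf in
/-- `∫ φ² = ∫_V φ` -/
lemma phi_sq : ∫ x, phi V x * phi V x = ∫ x, V.indicator (fun _ => (1:ℝ)) x * phi V x := by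
  have i1 : Integrable (fun x => phi V x * phi V x) :=
    (phi_memLp hV hf).integrable_mul (phi_memLp hV hf)
  have i2 : Integrable (fun x => V.indicator (fun _ => (1:ℝ)) x * phi V x) :=
    (memLp_indicator_const 2 hV 1 (Or.inr hf)).integrable_mul (phi_memLp hV hf)
  have hP : ∀ P ∈ Mx V, ∫ x in dya P.1 P.2, phi V x * phi V x =
      ∫ x in dya P.1 P.2, V.indicator (fun _ => (1:ℝ)) x * phi V x := by
    intro P hP
    have e1 : ∫ x in dya P.1 P.2, phi V x * phi V x =
        ∫ x in dya P.1 P.2, de V P.1 P.2 * de V P.1 P.2 := by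
      apply setIntegral_congr_fun (measurableSet_dya _ _)
      intro x hx
      simp only [phi_in hP hx]
    have e2 : ∫ x in dya P.1 P.2, V.indicator (fun _ => (1:ℝ)) x * phi V x =
        ∫ x in dya P.1 P.2, V.indicator (fun _ => (1:ℝ)) x * de V P.1 P.2 := by
      apply setIntegral_congr_fun (measurableSet_dya _ _)
      intro x hx
      simp only [phi_in hP hx]
    rw [e1, e2, setIntegral_const, volume_real_dya, integral_mul_const, setIntegral_indicator hV,
      setIntegral_const, smul_eq_mul, smul_eq_mul, mul_one]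
    unfold de
    field_simp
  have h0 : ∀ᵐ x, x ∉ WW V → phi V x * phi V x = V.indicator (fun _ => (1:ℝ)) x * phi V x := by
    filter_upwards with x hx
    rw [phi_out hx]; ring
  have i3 : Integrable (fun x => phi V x * phi V x - V.indicator (fun _ => (1:ℝ)) x * phi V x) :=
    i1.sub i2
  have i4 : Integrable (fun x => V.indicator (fun _ => (1:ℝ)) x * phi V x - phi V x * phi V x) :=
    i2.sub i1
  apply le_antisymm
  · rw [← sub_nonpos, ← integral_sub i1 i2]
    apply sum_le (V := V) i3
    · intro P h
      rw [integral_sub i1.integrableOn i2.integrableOn, hP P h, sub_self]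
    · filter_upwards [h0] with x hx hxW
      rw [hx hxW, sub_self]
  · rw [← sub_nonpos, ← integral_sub i2 i1]
    apply sum_le (V := V) i4
    · intro P h
      rw [integral_sub i2.integrableOn i1.integrableOn, hP P h, sub_self]
    · filter_upwards [h0] with x hx hxW
      rw [hx hxW, sub_self]

theorem shift_bound (hT : IsShift T) :
    ∫ x in V, (T (fV hV hf)) x ^ 2 ≤ 47/48 * (volume V).toReal := by
  set g := T (fV hV hf) with hg
  set G := T (ph hV hf) with hG
  set S := ∫ x, phi V x * phi V x with hS
  have i1 : Integrable (fun x => V.indicator (fun _ => (1:ℝ)) x * phi V x) :=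
    (memLp_indicator_const 2 hV 1 (Or.inr hf)).integrable_mul (phi_memLp hV hf)
  -- S is large
  have hS1 : 1/12 * (volume V).toReal ≤ S := by
    rw [hS, phi_sq hV hf]
    have e : 1/12 * (volume V).toReal = ∫ x, V.indicator (fun _ => (1:ℝ)) x * (1/12) := by
      rw [integral_mul_const, integral_indicator hV, setIntegral_const, measureReal_def]
      simp; ring
    rw [e]
    apply integral_mono_ae
    · exact ((integrable_indicator_iff hV).2 (integrableOn_const hf)).mul_const _
    · exact i1
    · filter_upwards [cover hV hf] with x hx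
      by_cases hxV : x ∈ V
      · obtain ⟨P, hP, hxP⟩ := hx hxV
        rw [phi_in hP hxP, Set.indicator_of_mem hxV]
        linarith [hP.1]
      · rw [Set.indicator_of_notMem hxV]; simp
  -- inner products
  have hgG : ∫ x, g x * G x = S := by
    rw [← inner_int, hg, hG, shift_inner hT, inner_int, hS, phi_sq hV hf]
    apply integral_congr_ae
    filter_upwards [fV_ae hV hf, ph_ae hV hf] with x h1 h2
    rw [h1, h2]
  have hGG : ∫ x, G x * G x = S := by
    rw [← inner_int, hG, shift_inner hT, inner_int, hS]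
    apply integral_congr_ae
    filter_upwards [ph_ae hV hf] with x h2
    rw [h2]
  have hgg : ∫ x, g x * g x = (volume V).toReal := by
    rw [← inner_int, hg, shift_inner hT, inner_int]
    have : ∫ x, (fV hV hf) x * (fV hV hf) x = ∫ x, V.indicator (fun _ => (1:ℝ)) x := by
      apply integral_congr_ae
      filter_upwards [fV_ae hV hf] with x h1
      rw [h1]
      by_cases hx : x ∈ V
      · rw [Set.indicator_of_mem hx]; norm_num
      · rw [Set.indicator_of_notMem hx]; norm_num
    rw [this, integral_indicator hV, setIntegral_const, measureReal_def]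
    simp
  have igg : Integrable (fun x => g x * g x) := mulI g g
  have iGG : Integrable (fun x => G x * G x) := mulI G G
  have iφφ : Integrable (fun x => phi V x * phi V x) :=
    (phi_memLp hV hf).integrable_mul (phi_memLp hV hf)
  have iloss := int_one_sub hV igg
  set loss := ∫ x, g x * g x * (1 - V.indicator (fun _ => (1:ℝ)) x) with hloss
  have hVg : ∫ x in V, g x ^ 2 = (volume V).toReal - loss := by
    rw [← hgg, hloss, ← integral_sub igg iloss, ← integral_indicator hV]
    apply integral_congr_ae
    filter_upwards with x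
    by_cases hx : x ∈ V
    · rw [Set.indicator_of_mem hx, Set.indicator_of_mem hx]; ring
    · rw [Set.indicator_of_notMem hx, Set.indicator_of_notMem hx]; ring
  have hmain := main_ineq hV hf hT
  rw [← hg, ← hG, hgG] at hmain
  have h2 : ∫ x, 3/2 * (|G x| * |g x| * (1 - V.indicator (fun _ => (1:ℝ)) x) +
      1/6 * (phi V x * |G x|)) ≤
      ∫ x, 3/2 * (1/4 * (G x * G x) + g x * g x * (1 - V.indicator (fun _ => (1:ℝ)) x) +
        1/12 * (phi V x * phi V x + G x * G x)) := by
    apply integral_mono_ae
    · refine (Integrable.add ?_ ((int_phi hV hf G).const_mul _)).const_mul _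
      exact int_one_sub hV ((Lp.memLp G).norm.integrable_mul (Lp.memLp g).norm)
    · exact (((iGG.const_mul _).add iloss).add ((iφφ.add iGG).const_mul _)).const_mul _
    · filter_upwards with x
      have h := ind_nonneg V x
      have a1 : |G x| * |G x| = G x * G x := abs_mul_abs_self _
      have a2 : |g x| * |g x| = g x * g x := abs_mul_abs_self _
      have b1 : |G x| * |g x| * (1 - V.indicator (fun _ => (1:ℝ)) x) ≤
          1/4 * (G x * G x) + g x * g x * (1 - V.indicator (fun _ => (1:ℝ)) x) := by
        by_cases hx : x ∈ V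
        · rw [Set.indicator_of_mem hx]
          nlinarith [mul_self_nonneg (G x)]
        · rw [Set.indicator_of_notMem hx]
          nlinarith [sq_nonneg (|G x| / 2 - |g x|)]
      have b2 : phi V x * |G x| ≤ 1/2 * (phi V x * phi V x + G x * G x) := by
        nlinarith [sq_nonneg (phi V x - |G x|)]
      linarith
  have h3 : ∫ x, 3/2 * (1/4 * (G x * G x) + g x * g x * (1 - V.indicator (fun _ => (1:ℝ)) x) +
        1/12 * (phi V x * phi V x + G x * G x)) = 3/2 * (1/4 * S + loss + 1/12 * (S + S)) := by
    have j1 : Integrable (fun x => 1/4 * (G x * G x)) := iGG.const_mul _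
    have j2 : Integrable (fun x => 1/4 * (G x * G x) +
        g x * g x * (1 - V.indicator (fun _ => (1:ℝ)) x)) := j1.add iloss
    have j3 : Integrable (fun x => phi V x * phi V x + G x * G x) := iφφ.add iGG
    have j4 : Integrable (fun x => 1/12 * (phi V x * phi V x + G x * G x)) := j3.const_mul _
    rw [integral_const_mul, integral_add j2 j4, integral_add j1 iloss, integral_const_mul,
      integral_const_mul, integral_add iφφ iGG, hGG]
  rw [hVg]
  linarith

end V
end Pool.Agent.R243.HS
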