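import Pool.Agent.R243.HS.Basic
set_option autoImplicit false
open MeasureTheory Set Filter Topology
noncomputable section
namespace Pool.Agent.R243.HS

/-! ### abstract signed permutation operators -/

section abs
variable {H : Type*} [NormedAddCommGroup H] [InnerProductSpace ℝ H] [CompleteSpace H] {ι : Type*}

lemma span_perp {b : ι → H} (hc : ∀ u : H, (∀ i, inner ℝ (b i) u = 0) → u = 0) :
    (Submodule.span ℝ (Set.range b))ᗮ = ⊥ := by
  rw [Submodule.eq_bot_iff]
  intro u hu
  refine hc u fun i => ?_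
  exact Submodule.inner_right_of_mem_orthogonal (Submodule.subset_span (Set.mem_range_self i)) hu

lemma dense_span {b : ι → H} (hc : ∀ u : H, (∀ i, inner ℝ (b i) u = 0) → u = 0) :
    Dense (Submodule.span ℝ (Set.range b) : Set H) := by
  have := Submodule.topologicalClosure_eq_top_iff.2 (span_perp hc)
  exact Submodule.dense_iff_topologicalClosure_eq_top.2 this

lemma op_ext {b : ι → H} (hc : ∀ u : H, (∀ i, inner ℝ (b i) u = 0) → u = 0)
    {T T' : H →L[ℝ] H} (h : ∀ i, T (b i) = T' (b i)) : T = T' := by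
  refine ContinuousLinearMap.ext_on (dense_span hc) ?_
  rintro _ ⟨i, rfl⟩
  exact h i

theorem exists_op {b : ι → H} (hb : Orthonormal ℝ b)
    (hc : ∀ u : H, (∀ i, inner ℝ (b i) u = 0) → u = 0) {σ : ι → ι} (hσ : Function.Involutive σ)
    {s : ι → ℝ} (hs : ∀ i, s i * s i = 1) :
    ∃! T : H →L[ℝ] H, ∀ i, T (b i) = s i • b (σ i) := by
  classical
  have hb' : Orthonormal ℝ (fun i => s i • b (σ i)) := by
    rw [orthonormal_iff_ite]
    intro i j
    rw [inner_smul_left, inner_smul_right, orthonormal_iff_ite.1 hb (σ i) (σ j)]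
    by_cases h : i = j
    · subst h; simp [hs i]
    · rw [if_neg (fun h' => h (hσ.injective h')), if_neg h]; simp
  have hc' : ∀ u : H, (∀ i, inner ℝ (s i • b (σ i)) u = 0) → u = 0 := by
    intro u hu
    refine hc u fun i => ?_
    have h := hu (σ i)
    rw [hσ i, inner_smul_left] at h
    have h0 : s (σ i) ≠ 0 := fun h0 => by have := hs (σ i); rw [h0] at this; simp at this
    rcases mul_eq_zero.1 h with h | h
    · exact absurd h (by simpa using h0)
    · exact h
  set B := HilbertBasis.mkOfOrthogonalEqBot hb (span_perp hc) with hB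
  set B' := HilbertBasis.mkOfOrthogonalEqBot hb' (span_perp hc') with hB'
  refine ⟨((B.repr.trans B'.repr.symm).toContinuousLinearEquiv : H →L[ℝ] H), ?_, ?_⟩
  · intro i
    have e1 : B i = b i := by rw [hB, HilbertBasis.coe_mkOfOrthogonalEqBot]
    have e2 : B' i = s i • b (σ i) := by rw [hB', HilbertBasis.coe_mkOfOrthogonalEqBot]
    rw [← e2, ← e1]
    change B'.repr.symm (B.repr (B i)) = B' i
    rw [HilbertBasis.repr_self, HilbertBasis.repr_symm_single]
  · intro T hT
    refine op_ext hc fun i => ?_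
    rw [hT i]
    have e1 : B i = b i := by rw [hB, HilbertBasis.coe_mkOfOrthogonalEqBot]
    have e2 : B' i = s i • b (σ i) := by rw [hB', HilbertBasis.coe_mkOfOrthogonalEqBot]
    rw [← e2, ← e1]
    change B' i = B'.repr.symm (B.repr (B i))
    rw [HilbertBasis.repr_self, HilbertBasis.repr_symm_single]

theorem op_antisymm {b : ι → H} (hb : Orthonormal ℝ b)
    (hc : ∀ u : H, (∀ i, inner ℝ (b i) u = 0) → u = 0) {σ : ι → ι} (hσ : Function.Involutive σ)
    {s : ι → ℝ} (hs' : ∀ i, s (σ i) = - s i)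
    {T : H →L[ℝ] H} (hT : ∀ i, T (b i) = s i • b (σ i)) (u v : H) :
    inner ℝ (T u) v = - inner ℝ u (T v) := by
  classical
  have h : ContinuousLinearMap.adjoint T = - T := by
    refine op_ext hc fun i => ?_
    rw [← sub_eq_zero]
    refine hc _ fun k => ?_
    rw [inner_sub_right, ContinuousLinearMap.adjoint_inner_right, neg_apply,
      inner_neg_right, hT, hT, inner_smul_left, inner_smul_right, orthonormal_iff_ite.1 hb,
      orthonormal_iff_ite.1 hb]
    by_cases h : σ k = i
    · have h2 : k = σ i := by rw [← h, hσ k]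
      rw [if_pos h, if_pos h2]
      have := hs' i
      rw [h2]
      simp [this]
    · have h2 : ¬ k = σ i := fun h2 => h (by rw [h2, hσ i])
      rw [if_neg h, if_neg h2]
      simp
  rw [← ContinuousLinearMap.adjoint_inner_right, h, neg_apply, inner_neg_right]

theorem op_norm {b : ι → H} (hb : Orthonormal ℝ b)
    (hc : ∀ u : H, (∀ i, inner ℝ (b i) u = 0) → u = 0) {σ : ι → ι} (hσ : Function.Involutive σ)
    {s : ι → ℝ} (hs : ∀ i, s i * s i = 1) (hs' : ∀ i, s (σ i) = - s i)
    {T : H →L[ℝ] H} (hT : ∀ i, T (b i) = s i • b (σ i)) (u v : H) :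
    inner ℝ (T u) (T v) = inner ℝ u v := by
  have h : T.comp T = - ContinuousLinearMap.id ℝ H := by
    refine op_ext hc fun i => ?_
    rw [ContinuousLinearMap.comp_apply, hT, map_smul, hT, hσ i, smul_smul, hs']
    have := hs i
    have e : s i * - s i = -1 := by linarith
    rw [e]
    simp
  rw [op_antisymm hb hc hσ hs' hT]
  have : T (T v) = - v := by
    have := congrArg (fun S => S v) h
    simpa using this
  rw [this, inner_neg_right, neg_neg]

end abs

/-! ### orthonormality of the Haar system -/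

lemma A_add (u v : L2) (j k : ℤ) : A (u + v) j k = A u j k + A v j k := by
  rw [← inner_ind, ← inner_ind, ← inner_ind, inner_add_right]

lemma A_sub (u v : L2) (j k : ℤ) : A (u - v) j k = A u j k - A v j k := by
  rw [← inner_ind, ← inner_ind, ← inner_ind, inner_sub_right]

lemma A_smul (c : ℝ) (u : L2) (j k : ℤ) : A (c • u) j k = c * A u j k := by
  rw [← inner_ind, ← inner_ind, inner_smul_right]

lemma A_indicator {s : Set ℝ} (hs : MeasurableSet s) (hμ : volume s ≠ ⊤) (j k : ℤ) :
    A (indicatorConstLp 2 hs hμ (1:ℝ)) j k = volume.real (dya j k ∩ s) := by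
  unfold A
  have h := indicatorConstLp_coeFn (p := 2) (hs := hs) (hμs := hμ) (c := (1:ℝ))
  rw [setIntegral_congr_ae (measurableSet_dya j k) (h.mono fun x hx _ => hx),
    setIntegral_indicator hs, setIntegral_const]
  simp

lemma A_ind (j k m : ℤ) (n : ℕ) :
    A (ind (j + n) k) j m = if m / 2 ^ n = k then (2:ℝ) ^ j else 0 := by
  unfold ind
  rw [A_indicator]
  split_ifs with h
  · rw [Set.inter_eq_left.2 (h ▸ dya_subset_anc j m n), volume_real_dya]
  · rw [(dya_disjoint_anc h).inter_eq]; simp

lemma A_haar (j k m : ℤ) (n : ℕ) : A (haar (j + n + 1) k) j m =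
    wt (j + n + 1) * ((if m / 2 ^ n = 2 * k + 1 then (2:ℝ) ^ j else 0) -
      (if m / 2 ^ n = 2 * k then (2:ℝ) ^ j else 0)) := by
  rw [haar_eq, A_smul, A_sub, add_sub_cancel_right, A_ind, A_ind]

lemma cf_haar_lt (j k k' : ℤ) (n : ℕ) : cf (haar (j + n + 1) k') j k = 0 := by
  rw [cf_eq]
  have e : j + (n:ℤ) + 1 = (j - 1) + ((n + 1 : ℕ):ℤ) + 1 := by push_cast; ring
  rw [e, A_haar, A_haar]
  have h : (2 * k + 1) / 2 ^ (n + 1) = (2 * k) / 2 ^ (n + 1) := by
    rw [pow_succ', ← Int.ediv_ediv_of_nonneg (by norm_num), ← Int.ediv_ediv_of_nonneg (by norm_num)]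
    congr 1
    omega
  rw [h, sub_self, mul_zero]

lemma cf_haar_same (j k k' : ℤ) : cf (haar j k') j k = if k = k' then 1 else 0 := by
  rw [cf_eq]
  have h1 := A_haar (j - 1) k' (2 * k + 1) 0
  have h2 := A_haar (j - 1) k' (2 * k) 0
  simp only [Nat.cast_zero, add_zero, sub_add_cancel, pow_zero, Int.ediv_one] at h1 h2
  rw [h1, h2]
  by_cases h : k = k'
  · subst h
    rw [if_pos rfl, if_neg (by omega), if_neg (by omega), if_pos rfl, if_pos rfl]
    have := wt_sq j
    rw [zpow_sub_one₀ (by norm_num : (2:ℝ) ≠ 0)]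
    nlinarith
  · rw [if_neg (by omega), if_neg (by omega), if_neg (by omega), if_neg (by omega), if_neg h]
    simp

lemma cf_haar (j k j' k' : ℤ) : cf (haar j' k') j k = if (j, k) = (j', k') then 1 else 0 := by
  rcases lt_trichotomy j j' with h | h | h
  · obtain ⟨n, hn⟩ : ∃ n : ℕ, j' = j + n + 1 := ⟨(j' - j - 1).toNat, by
      rw [Int.toNat_of_nonneg (by omega)]; ring⟩
    subst hn
    rw [cf_haar_lt, if_neg]
    intro h'
    rw [Prod.mk.injEq] at h'
    omega
  · subst h
    rw [cf_haar_same]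
    by_cases h : k = k'
    · subst h; simp
    · rw [if_neg h, if_neg (by simpa using h)]
  · obtain ⟨n, hn⟩ : ∃ n : ℕ, j = j' + n + 1 := ⟨(j - j' - 1).toNat, by
      rw [Int.toNat_of_nonneg (by omega)]; ring⟩
    have e : cf (haar j' k') j k = cf (haar j k) j' k' := by
      unfold cf; rw [real_inner_comm]
    rw [e]
    subst hn
    rw [cf_haar_lt, if_neg]
    intro h'
    rw [Prod.mk.injEq] at h'
    omega

/-- the Haar system, indexed by pairs -/
def hb (i : ℤ × ℤ) : L2 := haar i.1 i.2

lemma hb_orthonormal : Orthonormal ℝ hb := by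
  rw [orthonormal_iff_ite]
  intro i j
  exact cf_haar i.1 i.2 j.1 j.2

lemma hb_complete (u : L2) (h : ∀ i, inner ℝ (hb i) u = 0) : u = 0 :=
  eq_zero_of_cf fun j k => h (j, k)

/-- number of the sibling -/
def sib (k : ℤ) : ℤ := if k % 2 = 0 then k + 1 else k - 1

/-- the sign of the Haar shift -/
def sg (k : ℤ) : ℝ := if k % 2 = 0 then -1 else 1

lemma sib_sib (k : ℤ) : sib (sib k) = k := by
  unfold sib; split_ifs <;> omega

lemma sib_half (k : ℤ) : sib k / 2 = k / 2 := by
  unfold sib; split_ifs <;> omega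

lemma sg_sib (k : ℤ) : sg (sib k) = - sg k := by
  unfold sg sib
  split_ifs <;> first | omega | norm_num

lemma sg_mul (k : ℤ) : sg k * sg k = 1 := by
  unfold sg; split_ifs <;> norm_num

lemma sib_anc (k : ℤ) {n : ℕ} (hn : 1 ≤ n) : sib k / 2 ^ n = k / 2 ^ n := by
  obtain ⟨m, rfl⟩ : ∃ m, n = m + 1 := ⟨n - 1, by omega⟩
  rw [pow_succ', ← Int.ediv_ediv_of_nonneg (by norm_num), ← Int.ediv_ediv_of_nonneg (by norm_num),
    sib_half]

/-- `T` is the Haar shift: `T h_{I_+} = h_{I_-}` and `T h_{I_-} = - h_{I_+}` for every dyadic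
interval `I = [k 2^j, (k+1) 2^j)` -/
def IsShift (T : L2 →L[ℝ] L2) : Prop :=
  ∀ j k : ℤ, T (haar (j - 1) (2 * k + 1)) = haar (j - 1) (2 * k) ∧
    T (haar (j - 1) (2 * k)) = - haar (j - 1) (2 * k + 1)

lemma isShift_iff (T : L2 →L[ℝ] L2) :
    IsShift T ↔ ∀ i : ℤ × ℤ, T (hb i) = sg i.2 • hb (i.1, sib i.2) := by
  constructor
  · rintro h ⟨j, k⟩
    unfold hb sg sib
    simp only
    rcases Int.emod_two_eq_zero_or_one k with h0 | h0
    · have h2 := (h (j + 1) (k / 2)).2
      rw [add_sub_cancel_right, show 2 * (k / 2) = k by omega] at h2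
      rw [if_pos h0, if_pos h0, h2]; simp
    · have h2 := (h (j + 1) (k / 2)).1
      rw [add_sub_cancel_right, show 2 * (k / 2) + 1 = k by omega,
        show 2 * (k / 2) = k - 1 by omega] at h2
      rw [if_neg (by omega), if_neg (by omega), h2]; simp
  · intro h j k
    constructor
    · have := h (j - 1, 2 * k + 1)
      unfold hb sg sib at this
      simp only at this
      rw [if_neg (by omega), if_neg (by omega), one_smul, add_sub_cancel_right] at this
      exact this
    · have := h (j - 1, 2 * k)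
      unfold hb sg sib at this
      simp only at this
      rw [if_pos (by omega), if_pos (by omega), neg_smul, one_smul] at this
      exact this

lemma sib_inv : Function.Involutive (fun i : ℤ × ℤ => (i.1, sib i.2)) := by
  intro i; simp [sib_sib]

theorem existsUnique_shift : ∃! T : L2 →L[ℝ] L2, IsShift T := by
  have := exists_op hb_orthonormal hb_complete sib_inv (s := fun i => sg i.2) (fun _ => sg_mul _)
  simpa only [isShift_iff] using this

variable {T : L2 →L[ℝ] L2}

theorem shift_antisymm (hT : IsShift T) (u v : L2) : inner ℝ (T u) v = - inner ℝ u (T v) :=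
  op_antisymm hb_orthonormal hb_complete sib_inv (s := fun i => sg i.2) (fun _ => sg_sib _)
    ((isShift_iff T).1 hT) u v

theorem shift_inner (hT : IsShift T) (u v : L2) : inner ℝ (T u) (T v) = inner ℝ u v :=
  op_norm hb_orthonormal hb_complete sib_inv (s := fun i => sg i.2) (fun _ => sg_mul _)
    (fun _ => sg_sib _) ((isShift_iff T).1 hT) u v

theorem cf_shift (hT : IsShift T) (u : L2) (j k : ℤ) : cf (T u) j k = - sg k * cf u j (sib k) := by
  unfold cf
  have h := shift_antisymm hT (haar j k) u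
  have h2 := (isShift_iff T).1 hT (j, k)
  unfold hb at h2
  simp only at h2
  rw [h2, inner_smul_left] at h
  simp only [RCLike.conj_to_real] at h
  linarith

end Pool.Agent.R243.HS
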