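import Pool.Agent.R243.HS.Local
set_option autoImplicit false
open MeasureTheory Set Filter Topology
noncomputable section
namespace Pool.Agent.R243.HS

section V
variable {V : Set ℝ} (hV : MeasurableSet V) (hf : volume V ≠ ⊤)

/-- the maximal dyadic intervals in which `V` has density larger than `1/12` -/
def Mx (V : Set ℝ) : Set (ℤ × ℤ) :=
  {P | 1/12 < de V P.1 P.2 ∧ ∀ n : ℕ, de V (P.1 + (n + 1)) (P.2 / 2 ^ (n+1)) ≤ 1/12}

include hf in
lemma Mx_le {P : ℤ × ℤ} (h : P ∈ Mx V) : de V P.1 P.2 ≤ 1/6 := by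
  have h1 := h.2 0
  have h2 := de_par hf P.1 P.2
  simp at h1
  linarith

lemma Mx_disj {P Q : ℤ × ℤ} (hP : P ∈ Mx V) (hQ : Q ∈ Mx V) (hPQ : P ≠ Q) :
    Disjoint (dya P.1 P.2) (dya Q.1 Q.2) := by
  wlog h : P.1 ≤ Q.1 with H
  · exact (H hQ hP hPQ.symm (by omega)).symm
  obtain ⟨n, hn⟩ : ∃ n : ℕ, Q.1 = P.1 + n := ⟨(Q.1 - P.1).toNat, by
    rw [Int.toNat_of_nonneg (by omega)]; ring⟩
  rw [hn]
  apply dya_disjoint_anc
  intro h'
  rcases n with _ | n
  · apply hPQ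
    simp at hn h'
    exact Prod.ext hn.symm h'
  · have h1 := hP.2 n
    have h2 := hQ.1
    rw [hn, ← h'] at h2
    push_cast at h2
    linarith

lemma de_tendsto_up (hf : volume V ≠ ⊤) (j m : ℤ) :
    ∃ N : ℕ, ∀ n ≥ N, de V (j + n) (m / 2 ^ n) ≤ 1/12 := by
  have h1 : ∀ n : ℕ, de V (j + n) (m / 2 ^ n) ≤ volume.real V / (2:ℝ) ^ j * (1/2) ^ n := by
    intro n
    unfold de
    rw [zpow_add₀ (by norm_num : (2:ℝ) ≠ 0), zpow_natCast]
    have : volume.real (dya (j + n) (m / 2 ^ n) ∩ V) ≤ volume.real V :=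
      measureReal_mono Set.inter_subset_right hf
    calc _ ≤ volume.real V / ((2:ℝ) ^ j * 2 ^ n) := by gcongr
      _ = _ := by rw [one_div, inv_pow]; field_simp
  have h2 : Tendsto (fun n : ℕ => volume.real V / (2:ℝ) ^ j * (1/2) ^ n) atTop (𝓝 0) := by
    have := tendsto_pow_atTop_nhds_zero_of_lt_one (r := (1:ℝ)/2) (by norm_num) (by norm_num)
    simpa using this.const_mul (volume.real V / (2:ℝ) ^ j)
  have h3 := h2.eventually (eventually_le_nhds (by norm_num : (0:ℝ) < 1/12))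
  obtain ⟨N, hN⟩ := eventually_atTop.1 h3
  exact ⟨N, fun n hn => (h1 n).trans (hN n hn)⟩

lemma exists_Mx (hf : volume V ≠ ⊤) {j m : ℤ} {x : ℝ} (hx : x ∈ dya j m) (h : 1/12 < de V j m) :
    ∃ P ∈ Mx V, x ∈ dya P.1 P.2 := by
  classical
  obtain ⟨N, hN⟩ := de_tendsto_up hf j m
  set p := Nat.findGreatest (fun n => 1/12 < de V (j + n) (m / 2 ^ n)) N with hp
  have h0 : 1/12 < de V (j + (0:ℕ)) (m / 2 ^ 0) := by simpa using h
  have hp1 : 1/12 < de V (j + p) (m / 2 ^ p) :=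
    Nat.findGreatest_spec (P := fun n : ℕ => 1/12 < de V (j + n) (m / 2 ^ n)) (Nat.zero_le N) h0
  refine ⟨(j + p, m / 2 ^ p), ⟨hp1, fun n => ?_⟩, dya_subset_anc j m p hx⟩
  simp only
  have e : j + (p:ℤ) + ((n:ℤ) + 1) = j + ((p + (n + 1) : ℕ):ℤ) := by push_cast; ring
  rw [e, Int.ediv_ediv_of_nonneg (by positivity), ← pow_add]
  rcases le_or_gt (p + (n+1)) N with hle | hgt
  · exact not_lt.1 (Nat.findGreatest_is_greatest
      (P := fun n : ℕ => 1/12 < de V (j + n) (m / 2 ^ n)) (n := N) (by omega) hle)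
  · exact hN _ hgt.le

/-- almost every point of `V` lies in a maximal interval -/
lemma cover (hV : MeasurableSet V) (hf : volume V ≠ ⊤) :
    ∀ᵐ x, x ∈ V → ∃ P ∈ Mx V, x ∈ dya P.1 P.2 := by
  have hc := indicatorConstLp_coeFn (p := 2) (hs := hV) (hμs := hf) (c := (1:ℝ))
  filter_upwards [ld (locInt (fV hV hf)), hc] with x hx hc hxV
  have h1 : (fV hV hf) x = 1 := by
    unfold fV; rw [hc, Set.indicator_of_mem hxV]
  rw [h1] at hx
  obtain ⟨n, hn⟩ := (hx.eventually (lt_mem_nhds (by norm_num : (1/12:ℝ) < 1))).exists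
  refine exists_Mx hf (mem_dya.2 rfl : x ∈ dya (-(n:ℤ)) ⌊x / (2:ℝ) ^ (-(n:ℤ))⌋) ?_
  have h2 := A_fV hV hf (-(n:ℤ)) ⌊x / (2:ℝ) ^ (-(n:ℤ))⌋
  unfold A at h2
  rw [h2, zpow_neg, zpow_natCast] at hn
  have h3 : (0:ℝ) < 2 ^ n := by positivity
  calc (1:ℝ)/12 < 2 ^ n * (de V (-(n:ℤ)) ⌊x / (2:ℝ) ^ (-(n:ℤ))⌋ * (2 ^ n)⁻¹) := by
        rw [zpow_neg, zpow_natCast]; exact hn
    _ = _ := by field_simp

/-- the union of the maximal intervals -/
def WW (V : Set ℝ) : Set ℝ := ⋃ P : Mx V, dya P.1.1 P.1.2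

lemma measurableSet_WW : MeasurableSet (WW V) := MeasurableSet.iUnion fun _ => measurableSet_dya _ _

lemma WW_disj : Pairwise (fun P Q : Mx V => Disjoint (dya P.1.1 P.1.2) (dya Q.1.1 Q.1.2)) := by
  intro P Q h
  exact Mx_disj P.2 Q.2 (fun h' => h (Subtype.ext h'))

/-- sum over the maximal intervals -/
lemma sum_le {F : ℝ → ℝ} (hF : Integrable F) (h1 : ∀ P ∈ Mx V, ∫ x in dya P.1 P.2, F x ≤ 0)
    (h2 : ∀ᵐ x, x ∉ WW V → F x ≤ 0) : ∫ x, F x ≤ 0 := by
  rw [← integral_add_compl (measurableSet_WW (V := V)) hF]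
  have e1 : ∫ x in WW V, F x ≤ 0 := by
    unfold WW
    rw [integral_iUnion (fun _ => measurableSet_dya _ _) WW_disj hF.integrableOn]
    exact tsum_nonpos fun P => h1 P.1 P.2
  have e2 : ∫ x in (WW V)ᶜ, F x ≤ 0 := by
    apply setIntegral_nonpos_of_ae_restrict
    rw [EventuallyLE, ae_restrict_iff' measurableSet_WW.compl]
    filter_upwards [h2] with x hx hx'
    exact hx hx'
  linarith

/-- the density of `V` in the maximal interval of a point -/
def phi (V : Set ℝ) (x : ℝ) : ℝ :=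
  (∑' P : Mx V, (dya P.1.1 P.1.2).indicator (fun _ => ENNReal.ofReal (de V P.1.1 P.1.2)) x).toReal

lemma phi_meas : Measurable (phi V) := by
  unfold phi
  apply Measurable.ennreal_toReal
  apply Measurable.tsum
  intro P
  exact measurable_const.indicator (measurableSet_dya _ _)

lemma phi_in {P : ℤ × ℤ} (hP : P ∈ Mx V) {x : ℝ} (hx : x ∈ dya P.1 P.2) :
    phi V x = de V P.1 P.2 := by
  unfold phi
  rw [tsum_eq_single ⟨P, hP⟩]
  · rw [Set.indicator_of_mem hx, ENNReal.toReal_ofReal (de_nonneg _ _ _)]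
  · intro Q hQ
    rw [Set.indicator_of_notMem]
    intro hx'
    exact Set.disjoint_left.1 (Mx_disj hP Q.2 (fun h => hQ (Subtype.ext h.symm))) hx hx'

lemma phi_out {x : ℝ} (hx : x ∉ WW V) : phi V x = 0 := by
  unfold phi
  have : ∀ P : Mx V, (dya P.1.1 P.1.2).indicator (fun _ => ENNReal.ofReal (de V P.1.1 P.1.2)) x = 0 := by
    intro P
    rw [Set.indicator_of_notMem]
    intro h
    exact hx (Set.mem_iUnion.2 ⟨P, h⟩)
  simp only [this, tsum_zero, ENNReal.toReal_zero]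

lemma volume_WW (hV : MeasurableSet V) (hf : volume V ≠ ⊤) : volume (WW V) ≠ ⊤ := by
  have h1 : volume (WW V) ≤ ENNReal.ofReal 12 * volume (WW V ∩ V) := by
    have e : volume (WW V ∩ V) = ∑' P : Mx V, volume (dya P.1.1 P.1.2 ∩ V) := by
      unfold WW
      rw [Set.iUnion_inter]
      refine measure_iUnion ?_ fun P => (measurableSet_dya _ _).inter hV
      intro P Q h
      exact (WW_disj h).mono Set.inter_subset_left Set.inter_subset_left
    rw [e, ← ENNReal.tsum_mul_left]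
    unfold WW
    refine (measure_iUnion_le _).trans (ENNReal.tsum_le_tsum fun P => ?_)
    have h := P.2.1
    unfold de at h
    have h0 : (0:ℝ) < (2:ℝ) ^ P.1.1 := by positivity
    rw [lt_div_iff₀ h0] at h
    rw [volume_dya, ← ENNReal.ofReal_toReal (fin_inter hf P.1.1 P.1.2),
      ← ENNReal.ofReal_mul (by norm_num)]
    apply ENNReal.ofReal_le_ofReal
    rw [measureReal_def] at h
    linarith
  refine ne_top_of_le_ne_top ?_ h1
  exact ENNReal.mul_ne_top ENNReal.ofReal_ne_top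
    (ne_top_of_le_ne_top hf (measure_mono Set.inter_subset_right))

lemma phi_abs (hf : volume V ≠ ⊤) (x : ℝ) : |phi V x| ≤ (WW V).indicator (fun _ => (1:ℝ)) x := by
  by_cases hx : x ∈ WW V
  · rw [Set.indicator_of_mem hx]
    obtain ⟨P, hP⟩ := Set.mem_iUnion.1 hx
    rw [phi_in P.2 hP, abs_of_nonneg (de_nonneg _ _ _)]
    have := Mx_le hf P.2
    linarith
  · rw [Set.indicator_of_notMem hx, phi_out hx, abs_zero]

lemma phi_memLp (hV : MeasurableSet V) (hf : volume V ≠ ⊤) : MemLp (phi V) 2 volume := by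
  have h := memLp_indicator_const 2 (measurableSet_WW (V := V)) (1:ℝ) (Or.inr (volume_WW hV hf))
  refine h.of_le phi_meas.aestronglyMeasurable (Eventually.of_forall fun x => ?_)
  rw [Real.norm_eq_abs]
  exact (phi_abs hf x).trans (le_abs_self _)

end V
end Pool.Agent.R243.HS
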