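import Pool.Agent.R243.HS.Shift
set_option autoImplicit false
open MeasureTheory Set Filter Topology
noncomputable section
namespace Pool.Agent.R243.HS

abbrev L22 := Lp ℝ 2 (volume : Measure (ℝ × ℝ))

lemma haarFun_meas (j k : ℤ) : Measurable (haarFun j k) := by
  unfold haarFun
  exact ((measurable_const.indicator (measurableSet_dya _ _)).sub
    (measurable_const.indicator (measurableSet_dya _ _))).const_mul _

lemma haarFun_abs (j k : ℤ) (x : ℝ) :
    |haarFun j k x| = (dya j k).indicator (fun _ => wt j) x := by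
  unfold haarFun wt
  have hpos : (0:ℝ) ≤ (Real.sqrt ((2:ℝ) ^ j))⁻¹ := by positivity
  by_cases h1 : x ∈ dya (j-1) (2*k)
  · have h2 : x ∉ dya (j-1) (2*k+1) := fun h => Set.disjoint_left.1 (dya_children_disj j k) h1 h
    have h3 : x ∈ dya j k := by rw [dya_children]; exact Or.inl h1
    rw [Set.indicator_of_mem h1, Set.indicator_of_notMem h2, Set.indicator_of_mem h3, zero_sub, mul_neg,
      mul_one, abs_neg, abs_of_nonneg hpos]
  · by_cases h2 : x ∈ dya (j-1) (2*k+1)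
    · have h3 : x ∈ dya j k := by rw [dya_children]; exact Or.inr h2
      rw [Set.indicator_of_notMem h1, Set.indicator_of_mem h2, Set.indicator_of_mem h3, sub_zero,
        mul_one, abs_of_nonneg hpos]
    · have h3 : x ∉ dya j k := by rw [dya_children]; exact fun h => h.elim h1 h2
      rw [Set.indicator_of_notMem h1, Set.indicator_of_notMem h2, Set.indicator_of_notMem h3]
      simp

/-- the tensor product of two Haar functions -/
def haarFun2 (j k j' k' : ℤ) (p : ℝ × ℝ) : ℝ := haarFun j k p.1 * haarFun j' k' p.2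

lemma volume_rect_ne_top (j k j' k' : ℤ) : volume (dya j k ×ˢ dya j' k') ≠ ⊤ := by
  rw [Measure.volume_eq_prod, Measure.prod_prod]
  exact ENNReal.mul_ne_top (volume_dya_ne_top _ _) (volume_dya_ne_top _ _)

lemma memLp_haarFun2 (j k j' k' : ℤ) : MemLp (haarFun2 j k j' k') 2 volume := by
  have h := memLp_indicator_const 2 ((measurableSet_dya j k).prod (measurableSet_dya j' k'))
    (wt j * wt j') (Or.inr (volume_rect_ne_top j k j' k'))
  refine h.of_le ?_ (Eventually.of_forall fun p => ?_)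
  · apply Measurable.aestronglyMeasurable
    exact ((haarFun_meas j k).comp measurable_fst).mul ((haarFun_meas j' k').comp measurable_snd)
  · unfold haarFun2
    rw [Real.norm_eq_abs, abs_mul, haarFun_abs, haarFun_abs]
    refine le_trans (le_of_eq ?_) (le_abs_self _)
    by_cases h1 : p.1 ∈ dya j k
    · by_cases h2 : p.2 ∈ dya j' k'
      · rw [Set.indicator_of_mem h1, Set.indicator_of_mem h2, Set.indicator_of_mem (Set.mem_prod.2 ⟨h1, h2⟩)]
      · rw [Set.indicator_of_notMem h2, Set.indicator_of_notMem (fun h => h2 (Set.mem_prod.1 h).2), mul_zero]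
    · rw [Set.indicator_of_notMem h1, Set.indicator_of_notMem (fun h => h1 (Set.mem_prod.1 h).1), zero_mul]

/-- `h_J ⊗ h_{J'}` in `L²(ℝ²)` -/
def haar2 (j k j' k' : ℤ) : L22 := (memLp_haarFun2 j k j' k').toLp

lemma haar2_ae (j k j' k' : ℤ) : haar2 j k j' k' =ᵐ[volume] haarFun2 j k j' k' := MemLp.coeFn_toLp _

/-- indicator of a dyadic rectangle -/
def ind2 (j k j' k' : ℤ) : L22 :=
  indicatorConstLp 2 ((measurableSet_dya j k).prod (measurableSet_dya j' k'))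
    (volume_rect_ne_top j k j' k') (1:ℝ)

/-- integral over a dyadic rectangle -/
def B (u : L22) (j k j' k' : ℤ) : ℝ := ∫ p in dya j k ×ˢ dya j' k', u p

lemma inner_ind2 (u : L22) (j k j' k' : ℤ) : inner ℝ (ind2 j k j' k') u = B u j k j' k' := by
  unfold ind2 B
  rw [L2.inner_indicatorConstLp_one]

lemma ind2_ae (j k j' k' : ℤ) : ind2 j k j' k' =ᵐ[volume]
    fun p => (dya j k).indicator (fun _ => (1:ℝ)) p.1 * (dya j' k').indicator (fun _ => (1:ℝ)) p.2 := by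
  have h : ind2 j k j' k' =ᵐ[volume] (dya j k ×ˢ dya j' k').indicator (fun _ => (1:ℝ)) :=
    indicatorConstLp_coeFn
  filter_upwards [h] with p hp
  rw [hp]
  by_cases h1 : p.1 ∈ dya j k
  · by_cases h2 : p.2 ∈ dya j' k'
    · rw [Set.indicator_of_mem h1, Set.indicator_of_mem h2, Set.indicator_of_mem (Set.mem_prod.2 ⟨h1, h2⟩),
        mul_one]
    · rw [Set.indicator_of_notMem h2, Set.indicator_of_notMem (fun h => h2 (Set.mem_prod.1 h).2), mul_zero]
  · rw [Set.indicator_of_notMem h1, Set.indicator_of_notMem (fun h => h1 (Set.mem_prod.1 h).1), zero_mul]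

lemma haar2_eq (j k j' k' : ℤ) : haar2 j k j' k' = (wt j * wt j') •
    (ind2 (j-1) (2*k+1) (j'-1) (2*k'+1) - ind2 (j-1) (2*k+1) (j'-1) (2*k') -
      ind2 (j-1) (2*k) (j'-1) (2*k'+1) + ind2 (j-1) (2*k) (j'-1) (2*k')) := by
  apply Lp.ext
  filter_upwards [haar2_ae j k j' k', ind2_ae (j-1) (2*k+1) (j'-1) (2*k'+1),
    ind2_ae (j-1) (2*k+1) (j'-1) (2*k'), ind2_ae (j-1) (2*k) (j'-1) (2*k'+1),
    ind2_ae (j-1) (2*k) (j'-1) (2*k'),
    Lp.coeFn_smul (wt j * wt j') (ind2 (j-1) (2*k+1) (j'-1) (2*k'+1) -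
      ind2 (j-1) (2*k+1) (j'-1) (2*k') - ind2 (j-1) (2*k) (j'-1) (2*k'+1) + ind2 (j-1) (2*k) (j'-1) (2*k')),
    Lp.coeFn_add (ind2 (j-1) (2*k+1) (j'-1) (2*k'+1) -
      ind2 (j-1) (2*k+1) (j'-1) (2*k') - ind2 (j-1) (2*k) (j'-1) (2*k'+1)) (ind2 (j-1) (2*k) (j'-1) (2*k')),
    Lp.coeFn_sub (ind2 (j-1) (2*k+1) (j'-1) (2*k'+1) -
      ind2 (j-1) (2*k+1) (j'-1) (2*k')) (ind2 (j-1) (2*k) (j'-1) (2*k'+1)),
    Lp.coeFn_sub (ind2 (j-1) (2*k+1) (j'-1) (2*k'+1)) (ind2 (j-1) (2*k+1) (j'-1) (2*k'))]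
    with p h1 h2 h3 h4 h5 h6 h7 h8 h9
  rw [h1, h6, Pi.smul_apply, h7, Pi.add_apply, h8, Pi.sub_apply, h9, Pi.sub_apply, h2, h3, h4, h5]
  unfold haarFun2 haarFun wt
  rw [smul_eq_mul]
  ring

/-- Haar coefficient -/
def cf2 (u : L22) (j k j' k' : ℤ) : ℝ := inner ℝ (haar2 j k j' k') u

lemma cf2_eq (u : L22) (j k j' k' : ℤ) : cf2 u j k j' k' = wt j * wt j' *
    (B u (j-1) (2*k+1) (j'-1) (2*k'+1) - B u (j-1) (2*k+1) (j'-1) (2*k') -
      B u (j-1) (2*k) (j'-1) (2*k'+1) + B u (j-1) (2*k) (j'-1) (2*k')) := by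
  unfold cf2
  rw [haar2_eq, inner_smul_left, inner_add_left, inner_sub_left, inner_sub_left, inner_ind2,
    inner_ind2, inner_ind2, inner_ind2]
  simp

/-! orthonormality -/

lemma integral_haar_mul (j k j' k' : ℤ) : ∫ x, haarFun j k x * haarFun j' k' x =
    if (j, k) = (j', k') then 1 else 0 := by
  rw [← cf_haar j k j' k']
  unfold cf
  rw [L2.inner_def]
  apply integral_congr_ae
  filter_upwards [(memLp_haarFun j k).coeFn_toLp, (memLp_haarFun j' k').coeFn_toLp] with x h1 h2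
  unfold haar
  rw [h1, h2]
  simp [mul_comm]

lemma cf2_haar2 (j k j' k' i m i' m' : ℤ) : cf2 (haar2 i m i' m') j k j' k' =
    (if (j, k) = (i, m) then 1 else 0) * (if (j', k') = (i', m') then 1 else 0) := by
  rw [← integral_haar_mul, ← integral_haar_mul, ← integral_prod_mul]
  unfold cf2
  rw [L2.inner_def]
  apply integral_congr_ae
  filter_upwards [haar2_ae j k j' k', haar2_ae i m i' m'] with p h1 h2
  rw [h1, h2]
  unfold haarFun2
  simp only [RCLike.inner_apply, conj_trivial]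
  ring

/-- the two-parameter Haar system -/
def hb2 (i : (ℤ × ℤ) × (ℤ × ℤ)) : L22 := haar2 i.1.1 i.1.2 i.2.1 i.2.2

lemma hb2_orthonormal : Orthonormal ℝ hb2 := by
  rw [orthonormal_iff_ite]
  rintro ⟨⟨j, k⟩, ⟨j', k'⟩⟩ ⟨⟨i, m⟩, ⟨i', m'⟩⟩
  have := cf2_haar2 j k j' k' i m i' m'
  unfold cf2 at this
  unfold hb2
  simp only
  rw [this]
  by_cases h1 : (j, k) = (i, m)
  · by_cases h2 : (j', k') = (i', m')
    · rw [if_pos h1, if_pos h2, if_pos (by rw [h1, h2])]; simp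
    · have h3 : ¬ (((j, k), (j', k')) = ((i, m), (i', m'))) := fun h => h2 (Prod.ext_iff.1 h).2
      rw [if_pos h1, if_neg h2, if_neg h3]; simp
  · have h3 : ¬ (((j, k), (j', k')) = ((i, m), (i', m'))) := fun h => h1 (Prod.ext_iff.1 h).1
    rw [if_neg h1, if_neg h3]; simp

/-! completeness -/

lemma E_zero {E : ℤ → ℤ → ℝ} {C : ℝ} (h1 : ∀ j m : ℤ, E (j - 1) m = E j (m / 2) / 2)
    (h2 : ∀ j m : ℤ, |E j m| ≤ C * Real.sqrt ((2:ℝ) ^ j)) (j k : ℤ) : E j k = 0 := by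
  have h3 : ∀ (n : ℕ) (j m : ℤ), E j m = E (j + n) (m / 2 ^ n) / 2 ^ n := by
    intro n
    induction n with
    | zero => intro j m; simp
    | succ n ih =>
      intro j m
      have e1 := h1 (j + 1) m
      rw [add_sub_cancel_right] at e1
      rw [e1, ih (j + 1) (m / 2), Int.ediv_ediv_of_nonneg (by norm_num), ← pow_succ']
      push_cast
      rw [show j + 1 + (n:ℤ) = j + ((n:ℤ) + 1) by ring]
      rw [pow_succ]
      field_simp
      try ring
  have h4 : ∀ n : ℕ, |E j k| ≤ C * Real.sqrt ((2:ℝ) ^ j) * (1 / Real.sqrt 2) ^ n := by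
    intro n
    rw [h3 n j k, abs_div, abs_of_pos (by positivity : (0:ℝ) < 2 ^ n), div_le_iff₀ (by positivity)]
    refine (h2 _ _).trans (le_of_eq ?_)
    rw [zpow_add₀ (by norm_num : (2:ℝ) ≠ 0), Real.sqrt_mul (by positivity), zpow_natCast]
    have : Real.sqrt ((2:ℝ) ^ n) = Real.sqrt 2 ^ n := by
      rw [← Real.sqrt_sq (by positivity : 0 ≤ Real.sqrt 2 ^ n), ← pow_mul, mul_comm n 2, pow_mul,
        Real.sq_sqrt (by norm_num)]
    rw [this]
    have h4 : (1 / Real.sqrt 2) ^ n * 2 ^ n = Real.sqrt 2 ^ n := by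
      rw [← mul_pow]
      congr 1
      have : Real.sqrt 2 * Real.sqrt 2 = 2 := Real.mul_self_sqrt (by norm_num)
      field_simp
      nlinarith
    calc C * (Real.sqrt ((2:ℝ) ^ j) * Real.sqrt 2 ^ n)
        = C * Real.sqrt ((2:ℝ) ^ j) * ((1 / Real.sqrt 2) ^ n * 2 ^ n) := by rw [h4]; ring
      _ = _ := by ring
  have h5 : Tendsto (fun n : ℕ => C * Real.sqrt ((2:ℝ) ^ j) * (1 / Real.sqrt 2) ^ n) atTop (𝓝 0) := by
    have h5 : (1 / Real.sqrt 2) < 1 := by
      rw [div_lt_one (by positivity)]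
      exact Real.lt_sqrt_of_sq_lt (by norm_num)
    have := tendsto_pow_atTop_nhds_zero_of_lt_one (r := 1 / Real.sqrt 2) (by positivity) h5
    simpa using this.const_mul (C * Real.sqrt ((2:ℝ) ^ j))
  have h6 := ge_of_tendsto h5 (Eventually.of_forall h4)
  exact abs_eq_zero.1 (le_antisymm h6 (abs_nonneg _))

lemma integrableOn_L22 (u : L22) {s : Set (ℝ × ℝ)} (hs : volume s ≠ ⊤) : IntegrableOn u s volume := by
  have hM : MemLp u 2 (volume.restrict s) := (Lp.memLp u).restrict s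
  have : IsFiniteMeasure (volume.restrict s) :=
    ⟨by rw [Measure.restrict_apply_univ]; exact lt_top_iff_ne_top.2 hs⟩
  exact hM.integrable (by norm_num)

lemma B_children1 (u : L22) (j k j' k' : ℤ) :
    B u j k j' k' = B u (j-1) (2*k) j' k' + B u (j-1) (2*k+1) j' k' := by
  unfold B
  rw [dya_children j k, Set.union_prod, setIntegral_union _ ((measurableSet_dya _ _).prod (measurableSet_dya _ _))
    (integrableOn_L22 u (volume_rect_ne_top _ _ _ _)) (integrableOn_L22 u (volume_rect_ne_top _ _ _ _))]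
  exact Set.disjoint_prod.2 (Or.inl (dya_children_disj j k))

lemma B_children2 (u : L22) (j k j' k' : ℤ) :
    B u j k j' k' = B u j k (j'-1) (2*k') + B u j k (j'-1) (2*k'+1) := by
  unfold B
  rw [dya_children j' k', Set.prod_union, setIntegral_union _ ((measurableSet_dya _ _).prod (measurableSet_dya _ _))
    (integrableOn_L22 u (volume_rect_ne_top _ _ _ _)) (integrableOn_L22 u (volume_rect_ne_top _ _ _ _))]
  exact Set.disjoint_prod.2 (Or.inr (dya_children_disj j' k'))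

lemma norm_ind2 (j k j' k' : ℤ) : ‖ind2 j k j' k'‖ = Real.sqrt ((2:ℝ) ^ j) * Real.sqrt ((2:ℝ) ^ j') := by
  unfold ind2
  rw [norm_indicatorConstLp (by norm_num) (by norm_num)]
  have : volume.real (dya j k ×ˢ dya j' k') = (2:ℝ) ^ j * (2:ℝ) ^ j' := by
    rw [measureReal_def, Measure.volume_eq_prod, Measure.prod_prod, ENNReal.toReal_mul]
    rw [← measureReal_def, ← measureReal_def, volume_real_dya, volume_real_dya]
  rw [this, ← Real.sqrt_mul (by positivity)]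
  simp [Real.sqrt_eq_rpow]

lemma B_abs_le (u : L22) (j k j' k' : ℤ) :
    |B u j k j' k'| ≤ ‖u‖ * (Real.sqrt ((2:ℝ) ^ j) * Real.sqrt ((2:ℝ) ^ j')) := by
  rw [← inner_ind2, ← norm_ind2 j k j' k', mul_comm]
  exact abs_real_inner_le_norm _ _

lemma B_zero {u : L22} (h : ∀ j k j' k', cf2 u j k j' k' = 0) (j k j' k' : ℤ) : B u j k j' k' = 0 := by
  have hD : ∀ j' k' j k : ℤ, B u j k (j'-1) (2*k'+1) = B u j k (j'-1) (2*k') := by
    intro j' k' j k
    have := E_zero (E := fun j m => B u j m (j'-1) (2*k'+1) - B u j m (j'-1) (2*k'))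
      (C := 2 * ‖u‖ * Real.sqrt ((2:ℝ) ^ (j' - 1))) ?_ ?_ j k
    · linarith
    · intro j m
      have h1 := h j (m/2) j' k'
      rw [cf2_eq] at h1
      have h2 : 0 < wt j * wt j' := mul_pos (wt_pos _) (wt_pos _)
      rcases mul_eq_zero.1 h1 with h1 | h1
      · exact absurd h1 h2.ne'
      · have h3 := B_children1 u j (m/2) (j'-1) (2*k'+1)
        have h4 := B_children1 u j (m/2) (j'-1) (2*k')
        rcases Int.emod_two_eq_zero_or_one m with h0 | h0
        · have e : 2 * (m/2) = m := by omega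
          rw [e] at h1 h3 h4
          linarith
        · have e : 2 * (m/2) + 1 = m := by omega
          rw [e] at h1 h3 h4
          linarith
    · intro j m
      have h1 := B_abs_le u j m (j'-1) (2*k'+1)
      have h2 := B_abs_le u j m (j'-1) (2*k')
      calc |B u j m (j'-1) (2*k'+1) - B u j m (j'-1) (2*k')| ≤
          |B u j m (j'-1) (2*k'+1)| + |B u j m (j'-1) (2*k')| := abs_sub _ _
        _ ≤ _ := by linarith
  have := E_zero (E := fun j' m => B u j k j' m) (C := ‖u‖ * Real.sqrt ((2:ℝ) ^ j)) ?_ ?_ j' k'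
  · exact this
  · intro j' m
    have h1 := B_children2 u j k j' (m/2)
    have h2 := hD j' (m/2) j k
    rcases Int.emod_two_eq_zero_or_one m with h0 | h0
    · have e : 2 * (m/2) = m := by omega
      rw [e] at h1 h2
      linarith
    · have e : 2 * (m/2) + 1 = m := by omega
      rw [e] at h1 h2
      linarith
  · intro j' m
    have := B_abs_le u j k j' m
    rw [mul_assoc]; exact this

/-- Lebesgue differentiation along dyadic squares -/
lemma ld2 {f : ℝ × ℝ → ℝ} (hf : LocallyIntegrable f volume) : ∀ᵐ x : ℝ × ℝ, Tendsto (fun n : ℕ =>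
    (4:ℝ) ^ n * ∫ y in dya (-(n:ℤ)) ⌊x.1 / (2:ℝ) ^ (-(n:ℤ))⌋ ×ˢ dya (-(n:ℤ)) ⌊x.2 / (2:ℝ) ^ (-(n:ℤ))⌋, f y)
      atTop (𝓝 (f x)) := by
  filter_upwards [IsUnifLocDoublingMeasure.ae_tendsto_average (μ := (volume : Measure (ℝ × ℝ))) hf 1] with x hx
  set c : ℝ → ℕ → ℝ := fun t n => ((⌊t / (2:ℝ) ^ (-(n:ℤ))⌋ : ℝ) + 1/2) * (2:ℝ) ^ (-(n:ℤ)) with hc
  set δ : ℕ → ℝ := fun n => (2:ℝ) ^ (-(n:ℤ)) / 2 with hδ
  have hpos : ∀ n : ℕ, (0:ℝ) < (2:ℝ) ^ (-(n:ℤ)) := fun n => by positivity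
  have hball : ∀ t n, Metric.closedBall (c t n) (δ n) =
      Set.Icc ((⌊t / (2:ℝ) ^ (-(n:ℤ))⌋ : ℝ) * (2:ℝ) ^ (-(n:ℤ)))
        (((⌊t / (2:ℝ) ^ (-(n:ℤ))⌋ : ℝ) + 1) * (2:ℝ) ^ (-(n:ℤ))) := by
    intro t n
    rw [Real.closedBall_eq_Icc]
    congr 1
    · simp only [hc, hδ]; ring
    · simp only [hc, hδ]; ring
  have h0 : Tendsto δ atTop (𝓝[>] 0) := by
    rw [tendsto_nhdsWithin_iff]
    refine ⟨?_, Eventually.of_forall fun n => by simp only [hδ, Set.mem_Ioi]; linarith [hpos n]⟩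
    have : δ = fun n : ℕ => ((1:ℝ)/2) ^ n / 2 := by
      funext n; simp only [hδ]; rw [zpow_neg, zpow_natCast, one_div, inv_pow]
    rw [this]
    have h := tendsto_pow_atTop_nhds_zero_of_lt_one (r := (1:ℝ)/2) (by norm_num) (by norm_num)
    simpa using h.div_const 2
  have hmem : ∀ t n, t ∈ Metric.closedBall (c t n) (δ n) := by
    intro t n
    rw [hball t n]
    have : t ∈ dya (-(n:ℤ)) ⌊t / (2:ℝ) ^ (-(n:ℤ))⌋ := mem_dya.2 rfl
    exact Set.Ico_subset_Icc_self this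
  have h1 := hx (l := atTop) (fun n => (c x.1 n, c x.2 n)) δ h0 (Eventually.of_forall fun n => by
    rw [one_mul, ← closedBall_prod_same]
    exact ⟨hmem x.1 n, hmem x.2 n⟩)
  refine h1.congr fun n => ?_
  rw [← closedBall_prod_same, hball, hball, setAverage_eq, measureReal_def, Measure.volume_eq_prod,
    Measure.prod_prod, Real.volume_Icc, Real.volume_Icc, ENNReal.toReal_mul]
  have e0 : ∀ t : ℝ, (((⌊t / (2:ℝ) ^ (-(n:ℤ))⌋ : ℝ) + 1) * (2:ℝ) ^ (-(n:ℤ)) -
      (⌊t / (2:ℝ) ^ (-(n:ℤ))⌋ : ℝ) * (2:ℝ) ^ (-(n:ℤ))) = (2:ℝ) ^ (-(n:ℤ)) := fun t => by ring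
  have e : ((2:ℝ) ^ (-(n:ℤ)) * (2:ℝ) ^ (-(n:ℤ)))⁻¹ = 4 ^ n := by
    rw [zpow_neg, ← mul_inv, inv_inv, zpow_natCast, ← mul_pow]; norm_num
  rw [e0, e0, ENNReal.toReal_ofReal (hpos n).le, smul_eq_mul, e]
  congr 1
  apply setIntegral_congr_set
  exact Measure.set_prod_ae_eq Ico_ae_eq_Icc.symm Ico_ae_eq_Icc.symm

lemma locInt2 (u : L22) : LocallyIntegrable u volume :=
  (Lp.memLp u).locallyIntegrable (by norm_num)

lemma hb2_complete (u : L22) (h : ∀ i, inner ℝ (hb2 i) u = 0) : u = 0 := by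
  have hB := B_zero (u := u) (fun j k j' k' => h ((j, k), (j', k')))
  apply Lp.ext
  filter_upwards [ld2 (locInt2 u), Lp.coeFn_zero ℝ 2 (volume : Measure (ℝ × ℝ))] with x hx h0
  rw [h0]
  refine (tendsto_nhds_unique hx ?_)
  have : (fun n : ℕ => (4:ℝ) ^ n * ∫ y in dya (-(n:ℤ)) ⌊x.1 / (2:ℝ) ^ (-(n:ℤ))⌋ ×ˢ
      dya (-(n:ℤ)) ⌊x.2 / (2:ℝ) ^ (-(n:ℤ))⌋, u y) = fun _ => (0:ℝ) := by
    funext n
    have := hB (-(n:ℤ)) ⌊x.1 / (2:ℝ) ^ (-(n:ℤ))⌋ (-(n:ℤ)) ⌊x.2 / (2:ℝ) ^ (-(n:ℤ))⌋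
    unfold B at this
    rw [this, mul_zero]
  rw [this]
  exact tendsto_const_nhds

end Pool.Agent.R243.HS
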